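import Pool.Agent.COST.L1

/-!
The rank property of a countable group: for every set of vectors over the group algebra the measured
rank of the quotient module is the von Neumann dimension.
-/

set_option autoImplicit false

open scoped ENNReal InnerProductSpace
open MeasureTheory

namespace Pool.Agent.COST

/-- comparison of projections under a contraction -/
theorem proj_le {Ω Ω' : Type} (E : L2 Ω →L[ℂ] L2 Ω') (hE : ‖E‖ ≤ 1) (U : Submodule ℂ (L2 Ω))
    (U' : Submodule ℂ (L2 Ω')) (hU : ∀ u ∈ U, E u ∈ U') (x : L2 Ω) (hx : ‖E x‖ = ‖x‖) :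
    ‖U.topologicalClosure.starProjection x‖ ^ 2 ≤
      ‖U'.topologicalClosure.starProjection (E x)‖ ^ 2 := by
  have h1 : ∀ u ∈ U, ‖E x - U'.topologicalClosure.starProjection (E x)‖ ≤ ‖x - u‖ := by
    intro u hu
    refine (e4_1_near U' (E x) (E u) (hU u hu)).trans ?_
    rw [← map_sub]
    refine (E.le_opNorm _).trans ?_
    exact mul_le_of_le_one_left (norm_nonneg _) hE
  have h2 : ∀ u ∈ U.topologicalClosure,
      ‖E x - U'.topologicalClosure.starProjection (E x)‖ ≤ ‖x - u‖ := by
    intro u hu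
    have hcl : IsClosed {u : L2 Ω | ‖E x - U'.topologicalClosure.starProjection (E x)‖ ≤ ‖x - u‖} :=
      isClosed_le continuous_const (by fun_prop)
    exact closure_minimal (fun u hu => h1 u hu) hcl hu
  have h3 := h2 _ (Submodule.starProjection_apply_mem U.topologicalClosure x)
  rw [e4_1_sq, e4_1_sq, hx]
  have h4 : ‖E x - U'.topologicalClosure.starProjection (E x)‖ ^ 2 ≤
      ‖x - U.topologicalClosure.starProjection x‖ ^ 2 :=
    pow_le_pow_left₀ (norm_nonneg _) h3 2
  linarith

/-- left translation of finitely supported functions -/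
noncomputable def ltr {H J : Type} [Group H] (g : H) : (H × J →₀ ℂ) →ₗ[ℂ] (H × J →₀ ℂ) :=
  Finsupp.lmapDomain ℂ ℂ (fun p => (g * p.1, p.2))

theorem ltr_inj {H J : Type} [Group H] (g : H) :
    Function.Injective (fun p : H × J => (g * p.1, p.2)) := by
  rintro ⟨a, i⟩ ⟨b, j⟩ h
  simp only [Prod.mk.injEq, mul_right_inj] at h
  exact Prod.ext h.1 h.2

theorem ltr_apply {H J : Type} [Group H] (g : H) (f : H × J →₀ ℂ) (h : H) (j : J) :
    ltr g f (h, j) = f (g⁻¹ * h, j) := by
  have e : ((h, j) : H × J) = (fun p : H × J => (g * p.1, p.2)) (g⁻¹ * h, j) := by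
    simp
  unfold ltr
  rw [Finsupp.lmapDomain_apply]
  conv_lhs => rw [e]
  exact Finsupp.mapDomain_apply (ltr_inj g) f _

theorem ltr_single {H J : Type} [Group H] (g h : H) (j : J) (c : ℂ) :
    ltr g (Finsupp.single (h, j) c) = Finsupp.single (g * h, j) c := by
  unfold ltr
  rw [Finsupp.lmapDomain_apply, Finsupp.mapDomain_single]

theorem ltr_mul {H J : Type} [Group H] (g h : H) (f : H × J →₀ ℂ) :
    ltr (g * h) f = ltr g (ltr h f) := by
  ext ⟨k, j⟩
  rw [ltr_apply, ltr_apply, ltr_apply, mul_inv_rev, mul_assoc]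

theorem ltr_one {H J : Type} [Group H] (f : H × J →₀ ℂ) : ltr 1 f = f := by
  ext ⟨k, j⟩
  rw [ltr_apply, inv_one, one_mul]

theorem toL2_ltr {H J : Type} [Group H] (g : H) (f : H × J →₀ ℂ) :
    toL2 (ltr g f) = tr g (toL2 f) := by
  apply L2.ext
  rintro ⟨h, j⟩
  rw [toL2_apply, tr_toL2, ltr_apply]

/-- span of the translates in the Hilbert space -/
noncomputable def wspan {H I : Type} [Group H] (W : Set (H × I →₀ ℂ)) :
    Submodule ℂ (L2 (H × I)) :=
  Submodule.span ℂ {f | ∃ g : H, ∃ w ∈ W, f = tr g (toL2 w)}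

/-- algebraic span of the translates and of the points which are active at `x` -/
noncomputable def gspan {H I X : Type} [Group H] [MulAction H X] (W : Set (H × I →₀ ℂ))
    (T : I → Set X) (x : X) : Submodule ℂ (H × I →₀ ℂ) :=
  Submodule.span ℂ ({f | ∃ g : H, ∃ w ∈ W, f = ltr g w} ∪
    {f | ∃ (g : H) (j : I), g⁻¹ • x ∈ T j ∧ f = Finsupp.single (g, j) 1})

/-- The rank property. -/
def RankProp (H : Type) [Group H] : Prop :=
  ∀ (I : Type) [Fintype I] (W : Set (H × I →₀ ℂ)) (ε : ℝ≥0∞), ε ≠ 0 →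
    ∃ (X : PMP H) (T : I → Set X.X), (∀ i, MeasurableSet (T i)) ∧
      ∑ i, X.μ (T i) + ENNReal.ofReal (vd (wspan W)) ≤ Fintype.card I + ε ∧
      ∀ (x : X.X) (i : I), Finsupp.single ((1 : H), i) (1 : ℂ) ∈ gspan W T x

theorem vecF_eq_sum {H I : Type} [Group H] [Fintype I] (w : I → H →₀ ℂ) :
    vecF w = ∑ i, (w i).mapDomain (fun h => (h, i)) := by
  classical
  ext ⟨h, j⟩
  rw [vecF_apply, Finsupp.finsetSum_apply, Finset.sum_eq_single j]
  · exact (Finsupp.mapDomain_apply (fun a b hab => (Prod.ext_iff.mp hab).1) (w j) h).symm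
  · intro i _ hij
    apply Finsupp.mapDomain_of_notMem_range
    rintro ⟨h', hh'⟩
    exact hij (Prod.ext_iff.mp hh').2
  · intro hj
    exact absurd (Finset.mem_univ j) hj

theorem single_mem_gspan {H I X : Type} [Group H] [MulAction H X] [Fintype I]
    (W : Set (H × I →₀ ℂ)) (T : I → Set X)
    (hu : ∀ (Y : Type) [MulAction H Y] (π : Y → X), (∀ (g : H) (y : Y), π (g • y) = g • π y) →
        ∀ φ : I → Y → ℂ,
          (∀ w ∈ {w : I → H →₀ ℂ | vecF w ∈ W}, ∀ z, ∑ i, fact (fun h => w i h) (φ i) z = 0) →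
          (∀ i z, π z ∈ T i → φ i z = 0) → ∀ i z, φ i z = 0)
    (x : X) (i : I) : Finsupp.single ((1 : H), i) (1 : ℂ) ∈ gspan W T x := by
  classical
  by_contra hcon
  obtain ⟨L, hL, hker⟩ := Submodule.exists_le_ker_of_notMem hcon
  apply hL
  have h := hu H (fun h => h • x) (fun g y => mul_smul g y x)
    (fun j h => L (Finsupp.single (h⁻¹, j) 1)) ?_ ?_ i 1
  · simpa using h
  · intro w hw z
    have h1 : L (ltr z⁻¹ (vecF w)) = 0 :=
      hker (Submodule.subset_span (Or.inl ⟨z⁻¹, vecF w, hw, rfl⟩))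
    rw [← h1, vecF_eq_sum, map_sum, map_sum]
    apply Finset.sum_congr rfl
    intro j _
    unfold fact
    rw [finsum_eq_sum_of_support_subset (s := (w j).support)]
    · rw [Finsupp.mapDomain, Finsupp.sum, map_sum, map_sum]
      apply Finset.sum_congr rfl
      intro h _
      rw [ltr_single, smul_eq_mul]
      change w j h * L (Finsupp.single ((h⁻¹ * z)⁻¹, j) 1) = L (Finsupp.single (z⁻¹ * h, j) (w j h))
      rw [mul_inv_rev, inv_inv]
      have e : (Finsupp.single (z⁻¹ * h, j) (w j h) : H × I →₀ ℂ) =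
          (w j h) • Finsupp.single (z⁻¹ * h, j) 1 := by
        rw [Finsupp.smul_single, smul_eq_mul, mul_one]
      rw [e, map_smul, smul_eq_mul]
    · intro h hh
      rw [Function.mem_support] at hh
      rw [Finset.mem_coe, Finsupp.mem_support_iff]
      exact left_ne_zero_of_mul hh
  · intro j z hz
    apply hker
    apply Submodule.subset_span
    right
    exact ⟨z⁻¹, j, by rw [inv_inv]; exact hz, rfl⟩

/-- countable bi-orderable groups -/
theorem rank_biorder {H : Type} [Group H] [Countable H] (hH : BiOrderable H) : RankProp H := by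
  classical
  intro I _ W ε hε
  obtain ⟨hlo, h1, h2⟩ := hH
  have hL : MulLeftMono H := ⟨fun c a b hab => h1 a b c hab⟩
  have hR : MulRightMono H := ⟨fun c a b hab => h2 a b c hab⟩
  obtain ⟨S⟩ := cjs_exists (H := H)
  obtain ⟨D⟩ := lin_data S {w : I → H →₀ ℂ | vecF w ∈ W}
  obtain ⟨X, T, hT, hsum, hu⟩ := m1 D ε hε
  refine ⟨X, T, hT, ?_, fun x i => single_mem_gspan W T (fun Y _ π hπ φ h3 h4 => hu Y π hπ φ h3 h4) x i⟩
  have hm2 := m2 D
  have hle : vd (wspan W) ≤ D.r := by
    refine le_trans (vd_mono ?_) hm2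
    unfold wspan
    apply Submodule.span_mono
    rintro f ⟨g, w, hw, rfl⟩
    refine ⟨fun i => (w.comapDomain (fun h => (h, i)) (fun a _ b _ hab => (Prod.ext_iff.mp hab).1)), ?_, g, ?_⟩
    · change vecF _ ∈ W
      have e : vecF (fun i => (w.comapDomain (fun h => (h, i))
          (fun a _ b _ hab => (Prod.ext_iff.mp hab).1))) = w := by
        ext ⟨h, j⟩
        rw [vecF_apply, Finsupp.comapDomain_apply]
      rw [e]
      exact hw
    · have e : vecF (fun i => (w.comapDomain (fun h => (h, i))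
          (fun a _ b _ hab => (Prod.ext_iff.mp hab).1))) = w := by
        ext ⟨h, j⟩
        rw [vecF_apply, Finsupp.comapDomain_apply]
      rw [e]
  have h5 : ENNReal.ofReal (vd (wspan W)) ≤ (D.r : ℝ≥0∞) := by
    rw [← ENNReal.ofReal_natCast]
    exact ENNReal.ofReal_le_ofReal hle
  calc ∑ i, X.μ (T i) + ENNReal.ofReal (vd (wspan W)) ≤ ∑ i, X.μ (T i) + D.r := by gcongr
    _ ≤ Fintype.card I + ε := hsum

end Pool.Agent.COST
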