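import Pool.Agent.COSTP.P0

/-!
The rank property bounds the cost; it passes to subgroups and to local closures.
-/

set_option autoImplicit false

open scoped ENNReal InnerProductSpace
open MeasureTheory

namespace Pool.Agent.COST

/-- boundary of finitely supported chains -/
noncomputable def bdL {G : Type} [Group G] {d : ℕ} (s : Fin d → G) : (G × Fin d →₀ ℂ) →ₗ[ℂ] (G →₀ ℂ) :=
  Finsupp.linearCombination ℂ (fun p => Finsupp.single (p.1 * s p.2) 1 - Finsupp.single p.1 1)

theorem bdL_apply {G : Type} [Group G] {d : ℕ} (s : Fin d → G) (u : G × Fin d →₀ ℂ) (g : G) :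
    bdL s u g = ∑ j, (u (g * (s j)⁻¹, j) - u (g, j)) := by
  classical
  induction u using Finsupp.induction_linear with
  | zero => simp
  | add u v hu hv =>
    rw [map_add, Finsupp.add_apply, hu, hv, ← Finset.sum_add_distrib]
    apply Finset.sum_congr rfl
    intro j _
    simp only [Finsupp.add_apply]
    ring
  | single p c =>
    obtain ⟨h, i⟩ := p
    unfold bdL
    rw [Finsupp.linearCombination_single, Finset.sum_eq_single i]
    · simp only [Finsupp.smul_apply, Finsupp.sub_apply, Finsupp.single_apply, smul_eq_mul, Prod.mk.injEq,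
        and_true]
      have e : (h = g * (s i)⁻¹) ↔ (h * s i = g) := by
        rw [eq_mul_inv_iff_mul_eq]
      simp only [e]
      split_ifs <;> ring
    · intro j _ hj
      rw [Finsupp.single_apply, Finsupp.single_apply, if_neg, if_neg, sub_zero]
      · intro hc
        exact hj (Prod.ext_iff.mp hc).2.symm
      · intro hc
        exact hj (Prod.ext_iff.mp hc).2.symm
    · intro hc
      exact absurd (Finset.mem_univ i) hc

/-- finite cycles -/
def cycF {G : Type} [Group G] {d : ℕ} (s : Fin d → G) : Set (G × Fin d →₀ ℂ) := {u | bdL s u = 0}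

theorem bdL_ltr {G : Type} [Group G] {d : ℕ} (s : Fin d → G) (g : G) (u : G × Fin d →₀ ℂ)
    (hu : bdL s u = 0) : bdL s (ltr g u) = 0 := by
  ext k
  rw [bdL_apply]
  have h := bdL_apply s u (g⁻¹ * k)
  rw [hu] at h
  simp only [ltr_apply]
  simp only [mul_assoc] at h
  rw [← h]
  rfl

theorem finCycles_le_wspan {G : Type} [Group G] {d : ℕ} (s : Fin d → G) :
    finCycles s ≤ wspan (cycF s) := by
  intro f hf
  obtain ⟨hf1, hf2⟩ := hf
  have e : toL2 (Finsupp.ofSupportFinite (f : G × Fin d → ℂ) hf2) = f := by
    apply L2.ext
    intro p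
    rw [toL2_apply]
    rfl
  apply Submodule.subset_span
  refine ⟨1, Finsupp.ofSupportFinite (f : G × Fin d → ℂ) hf2, ?_, ?_⟩
  · change bdL s _ = 0
    ext g
    rw [bdL_apply]
    exact hf1 g
  · rw [tr_one, e]

theorem rank_connected {G Z : Type} [Group G] [MulAction G Z] {d : ℕ} (s : Fin d → G)
    (hs : Subgroup.closure (Set.range s) = ⊤) (S : Fin d → Set Z)
    (hgen : ∀ (z : Z) (i : Fin d), Finsupp.single ((1 : G), i) (1 : ℂ) ∈ gspan (cycF s) S z)
    (x : Z) (k : G) :
    Relation.EqvGen (fun a b => ∃ j, a ∈ S j ∧ b = (s j)⁻¹ • a) x (k • x) := by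
  classical
  set R := Relation.EqvGen (fun a b => ∃ j, a ∈ S j ∧ b = (s j)⁻¹ • a) with hR
  let f : Z → ℂ := fun z => if R x z then 1 else 0
  have hf1 : ∀ z j, f ((s j)⁻¹ • z) = f z := by
    intro z j
    let L : (G × Fin d →₀ ℂ) →ₗ[ℂ] ℂ :=
      (Finsupp.linearCombination ℂ (fun g : G => f (g⁻¹ • z))) ∘ₗ bdL s
    have hL : ∀ g i, L (Finsupp.single (g, i) 1) = f ((s i)⁻¹ • g⁻¹ • z) - f (g⁻¹ • z) := by
      intro g i
      simp only [L, LinearMap.comp_apply, bdL, Finsupp.linearCombination_single, one_smul, map_sub,
        smul_eq_mul, one_mul, mul_inv_rev, mul_smul]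
    have hker : gspan (cycF s) S z ≤ LinearMap.ker L := by
      unfold gspan
      rw [Submodule.span_le]
      rintro u (⟨g, w, hw, rfl⟩ | ⟨g, i, hi, rfl⟩)
      · change L (ltr g w) = 0
        simp only [L, LinearMap.comp_apply]
        rw [bdL_ltr s g w hw, map_zero]
      · change L (Finsupp.single (g, i) 1) = 0
        rw [hL, sub_eq_zero]
        have h1 : R (g⁻¹ • z) ((s i)⁻¹ • g⁻¹ • z) := Relation.EqvGen.rel _ _ ⟨i, hi, rfl⟩
        have h2 : R x ((s i)⁻¹ • g⁻¹ • z) ↔ R x (g⁻¹ • z) :=
          ⟨fun h => Relation.EqvGen.trans _ _ _ h (Relation.EqvGen.symm _ _ h1),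
            fun h => Relation.EqvGen.trans _ _ _ h h1⟩
        simp only [f, h2]
    have h3 := hker (hgen z j)
    rw [LinearMap.mem_ker, hL, inv_one, one_smul, sub_eq_zero] at h3
    exact h3
  have hf2 : ∀ k : G, ∀ z, f (k • z) = f z := by
    intro k
    have hk : k ∈ Subgroup.closure (Set.range s) := by rw [hs]; trivial
    induction hk using Subgroup.closure_induction with
    | mem y hy =>
      obtain ⟨j, rfl⟩ := hy
      intro z
      have := hf1 (s j • z) j
      rw [inv_smul_smul] at this
      exact this.symm
    | one => intro z; rw [one_smul]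
    | mul a b _ _ ha hb => intro z; rw [mul_smul, ha, hb]
    | inv a _ ha =>
      intro z
      have := ha (a⁻¹ • z)
      rw [smul_inv_smul] at this
      exact this.symm
  have h4 := hf2 k x
  have h5 : f x = 1 := by
    simp only [f]
    rw [if_pos]
    exact Relation.EqvGen.refl _
  rw [h5] at h4
  by_contra hcon
  simp only [f] at h4
  rw [if_neg hcon] at h4
  exact zero_ne_one h4

/-- The rank property bounds the cost. -/
theorem cost_of_rank {G : Type} [Group G] [Countable G] (hG : RankProp G) {d : ℕ} (s : Fin d → G)
    (hs : Subgroup.closure (Set.range s) = ⊤) :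
    groupCost G ≤ ENNReal.ofReal (1 + bettiOne s) := by
  have key : ∀ ε : ℝ≥0∞, ε ≠ 0 → groupCost G + ENNReal.ofReal (vd (finCycles s)) ≤ d + ε := by
    intro ε hε
    obtain ⟨X, T, hT, hsum, hgen⟩ := hG (Fin d) (cycF s) ε hε
    obtain ⟨F⟩ := PMP.toStd_fac X
    have h1 : (PMP.toStd X).cost ≤ ∑' j, (PMP.toStd X).μ (F.f ⁻¹' (T j)) := by
      apply cost_le_fam (PMP.toStd X) (fun j => (s j)⁻¹) (fun j => F.f ⁻¹' (T j))
        (fun j => F.mp.measurable (hT j))
      refine Filter.Eventually.of_forall fun x k => ?_
      refine rank_connected s hs (fun j => F.f ⁻¹' (T j)) ?_ x k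
      intro z i
      have h2 := hgen (F.f z) i
      have h3 : gspan (cycF s) T (F.f z) ≤ gspan (cycF s) (fun j => F.f ⁻¹' (T j)) z := by
        unfold gspan
        apply Submodule.span_mono
        apply Set.union_subset_union_right
        rintro u ⟨g, j, hj, rfl⟩
        refine ⟨g, j, ?_, rfl⟩
        change F.f (g⁻¹ • z) ∈ T j
        rw [F.eqv]
        exact hj
      exact h3 h2
    rw [tsum_fintype] at h1
    have h4 : ∀ j, (PMP.toStd X).μ (F.f ⁻¹' (T j)) = X.μ (T j) := fun j =>
      F.mp.measure_preimage (hT j).nullMeasurableSet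
    simp only [h4] at h1
    have h5 : groupCost G ≤ ∑ j, X.μ (T j) := le_trans (iInf_le _ _) h1
    have h6 : ENNReal.ofReal (vd (finCycles s)) ≤ ENNReal.ofReal (vd (wspan (cycF s))) :=
      ENNReal.ofReal_le_ofReal (vd_mono (finCycles_le_wspan s))
    calc groupCost G + ENNReal.ofReal (vd (finCycles s))
        ≤ ∑ j, X.μ (T j) + ENNReal.ofReal (vd (wspan (cycF s))) := add_le_add h5 h6
      _ ≤ Fintype.card (Fin d) + ε := hsum
      _ = d + ε := by rw [Fintype.card_fin]
  have key2 : groupCost G + ENNReal.ofReal (vd (finCycles s)) ≤ d := by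
    apply ENNReal.le_of_forall_pos_le_add
    intro ε hε _
    exact key ε (by exact_mod_cast hε.ne')
  have h7 : groupCost G ≤ (d : ℝ≥0∞) - ENNReal.ofReal (vd (finCycles s)) :=
    ENNReal.le_sub_of_add_le_right ENNReal.ofReal_ne_top key2
  have h8 : (d : ℝ≥0∞) - ENNReal.ofReal (vd (finCycles s)) = ENNReal.ofReal ((d : ℝ) - vd (finCycles s)) := by
    rw [ENNReal.ofReal_sub _ (by unfold vd; positivity), ENNReal.ofReal_natCast]
  rw [h8] at h7
  refine h7.trans (ENNReal.ofReal_le_ofReal ?_)
  have h9 := cycles_lower s
  unfold bettiOne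
  linarith

/-- restriction of the action -/
noncomputable def PMP.res {L G : Type} [Group L] [Group G] (f : L →* G) (X : PMP G) : PMP L where
  X := X.X
  ms := X.ms
  sb := X.sb
  act := MulAction.compHom X.X f
  μ := X.μ
  prob := X.prob
  mp := fun g => X.mp (f g)

theorem PMP.res_smul {L G : Type} [Group L] [Group G] (f : L →* G) (X : PMP G) (g : L) (x : X.X) :
    (g • (show (PMP.res f X).X from x) : (PMP.res f X).X) = (f g • x : X.X) := rfl

/-- The rank property passes to subgroups. -/
theorem RankProp.sub {L G : Type} [Group L] [Group G] (f : L →* G) (hf : Function.Injective f)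
    (hG : RankProp G) : RankProp L := by
  classical
  intro I _ W ε hε
  let em : L × I → G × I := fun p => (f p.1, p.2)
  have hem : Function.Injective em := by
    rintro ⟨a, i⟩ ⟨b, j⟩ h
    simp only [em, Prod.mk.injEq] at h
    exact Prod.ext (hf h.1) h.2
  obtain ⟨X, T, hT, hsum, hgen⟩ := hG I ((Finsupp.mapDomain em) '' W) ε hε
  refine ⟨PMP.res f X, T, hT, ?_, ?_⟩
  · -- dimensions
    have hle : vd (wspan W) ≤ vd (wspan ((Finsupp.mapDomain em) '' W)) := by
      let p : G × I → Option (L × I) := fun q => if h : ∃ l : L, f l = q.1 then some (h.choose, q.2) else none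
      have hp1 : ∀ l i, p (f l, i) = some (l, i) := by
        intro l i
        have h : ∃ l' : L, f l' = f l := ⟨l, rfl⟩
        simp only [p]
        rw [dif_pos h]
        have := hf h.choose_spec
        rw [this]
      have hp2 : ∀ g i, (∀ l, f l ≠ g) → p (g, i) = none := by
        intro g i h
        simp only [p]
        rw [dif_neg]
        rintro ⟨l, hl⟩
        exact h l hl
      have hp : ∀ a b ω, p a = some ω → p b = some ω → a = b := by
        rintro ⟨a, i⟩ ⟨b, j⟩ ⟨l, k⟩ h1 h2
        by_cases ha : ∃ l, f l = a
        · obtain ⟨l1, rfl⟩ := ha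
          by_cases hb : ∃ l, f l = b
          · obtain ⟨l2, rfl⟩ := hb
            rw [hp1] at h1 h2
            have := h1.trans h2.symm
            simp only [Option.some.injEq, Prod.mk.injEq] at this
            rw [this.1, this.2]
          · push Not at hb
            rw [hp2 b j hb] at h2
            exact absurd h2 (by simp)
        · push Not at ha
          rw [hp2 a i ha] at h1
          exact absurd h1 (by simp)
      obtain ⟨E, hE, hEa⟩ := pre_op p hp
      have hdl : ∀ i, E (dl ((1 : L), i)) = dl ((1 : G), i) := by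
        intro i
        apply L2.ext
        rintro ⟨g, j⟩
        rw [hEa]
        by_cases hg : ∃ l, f l = g
        · obtain ⟨l, rfl⟩ := hg
          rw [hp1, Option.elim_some]
          by_cases h : ((l, j) : L × I) = (1, i)
          · have h' : ((f l, j) : G × I) = (1, i) := by
              simp only [Prod.mk.injEq] at h ⊢
              exact ⟨by rw [h.1, map_one], h.2⟩
            rw [h, h', dl_self, dl_self]
          · have h' : ((f l, j) : G × I) ≠ (1, i) := by
              intro h2
              apply h
              simp only [Prod.mk.injEq] at h2 ⊢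
              exact ⟨hf (by rw [h2.1, map_one]), h2.2⟩
            rw [dl_ne h, dl_ne h']
        · push Not at hg
          rw [hp2 g j hg, Option.elim_none]
          rw [dl_ne]
          intro h2
          simp only [Prod.mk.injEq] at h2
          exact hg 1 (by rw [h2.1, map_one])
      unfold vd
      apply Finset.sum_le_sum
      intro i _
      rw [← hdl i]
      apply proj_le E hE
      · intro u hu
        have hsp : wspan W ≤ (wspan ((Finsupp.mapDomain em) '' W)).comap E.toLinearMap := by
          conv_lhs => unfold wspan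
          rw [Submodule.span_le]
          rintro _ ⟨g, w, hw, rfl⟩
          change E (tr g (toL2 w)) ∈ wspan ((Finsupp.mapDomain em) '' W)
          apply Submodule.subset_span
          refine ⟨f g, Finsupp.mapDomain em w, ⟨w, hw, rfl⟩, ?_⟩
          apply L2.ext
          rintro ⟨k, j⟩
          rw [hEa, tr_toL2]
          by_cases hk : ∃ l, f l = k
          · obtain ⟨l, rfl⟩ := hk
            rw [hp1, Option.elim_some, tr_toL2]
            have e : (((f g)⁻¹ * f l, j) : G × I) = em (g⁻¹ * l, j) := by
              simp only [em, map_mul, map_inv]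
            rw [e, Finsupp.mapDomain_apply hem]
          · push Not at hk
            rw [hp2 k j hk, Option.elim_none]
            symm
            apply Finsupp.mapDomain_of_notMem_range
            rintro ⟨⟨l, i'⟩, hl⟩
            simp only [em, Prod.mk.injEq] at hl
            apply hk (g * l)
            rw [map_mul, hl.1, mul_inv_cancel_left]
        exact hsp hu
      · rw [hdl, norm_dl, norm_dl]
    have h5 := ENNReal.ofReal_le_ofReal hle
    calc ∑ i, X.μ (T i) + ENNReal.ofReal (vd (wspan W))
        ≤ ∑ i, X.μ (T i) + ENNReal.ofReal (vd (wspan ((Finsupp.mapDomain em) '' W))) := by gcongr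
      _ ≤ Fintype.card I + ε := hsum
  · intro x i
    let R : (G × I →₀ ℂ) →ₗ[ℂ] (L × I →₀ ℂ) := Finsupp.lcomapDomain em hem
    have hR : ∀ u p, R u p = u (em p) := fun u p => rfl
    have h1 : R (Finsupp.single ((1 : G), i) 1) = Finsupp.single ((1 : L), i) 1 := by
      ext ⟨l, j⟩
      rw [hR, Finsupp.single_apply, Finsupp.single_apply]
      have e : (((1 : G), i) = em (l, j)) ↔ (((1 : L), i) = (l, j)) := by
        simp only [em, Prod.mk.injEq]
        constructor
        · rintro ⟨h2, h3⟩
          exact ⟨hf (by rw [map_one, h2]), h3⟩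
        · rintro ⟨h2, h3⟩
          exact ⟨by rw [← h2, map_one], h3⟩
      simp only [e]
    rw [← h1]
    have hsp : gspan ((Finsupp.mapDomain em) '' W) T x ≤
        (@gspan L I (PMP.res f X).X _ (PMP.res f X).act W T x).comap R := by
      conv_lhs => unfold gspan
      rw [Submodule.span_le]
      rintro u (⟨g, _, ⟨w, hw, rfl⟩, rfl⟩ | ⟨g, j, hj, rfl⟩)
      · change R (ltr g (Finsupp.mapDomain em w)) ∈ @gspan L I (PMP.res f X).X _ (PMP.res f X).act W T x
        by_cases hg : ∃ l, f l = g
        · obtain ⟨l, rfl⟩ := hg
          apply Submodule.subset_span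
          left
          refine ⟨l, w, hw, ?_⟩
          ext ⟨k, j⟩
          rw [hR]
          change (ltr (f l) (Finsupp.mapDomain em w)) (f k, j) = _
          rw [ltr_apply, ltr_apply]
          have e : (((f l)⁻¹ * f k, j) : G × I) = em (l⁻¹ * k, j) := by
            simp only [em, map_mul, map_inv]
          rw [e, Finsupp.mapDomain_apply hem]
        · push Not at hg
          have h0 : R (ltr g (Finsupp.mapDomain em w)) = 0 := by
            ext ⟨k, j⟩
            rw [hR, Finsupp.zero_apply]
            change (ltr g (Finsupp.mapDomain em w)) (f k, j) = _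
            rw [ltr_apply]
            apply Finsupp.mapDomain_of_notMem_range
            rintro ⟨⟨l, i'⟩, hl⟩
            simp only [em, Prod.mk.injEq] at hl
            apply hg (k * l⁻¹)
            rw [map_mul, map_inv, hl.1]
            group
          rw [h0]
          exact Submodule.zero_mem _
      · change R (Finsupp.single (g, j) 1) ∈ @gspan L I (PMP.res f X).X _ (PMP.res f X).act W T x
        by_cases hg : ∃ l, f l = g
        · obtain ⟨l, rfl⟩ := hg
          apply Submodule.subset_span
          right
          refine ⟨l, j, ?_, ?_⟩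
          · rw [← map_inv] at hj
            exact hj
          · ext ⟨k, j'⟩
            rw [hR, Finsupp.single_apply, Finsupp.single_apply]
            have e : ((f l, j) = em (k, j')) ↔ ((l, j) = (k, j')) := by
              simp only [em, Prod.mk.injEq]
              constructor
              · rintro ⟨h2, h3⟩
                exact ⟨hf h2, h3⟩
              · rintro ⟨h2, h3⟩
                exact ⟨by rw [h2], h3⟩
            simp only [e]
        · push Not at hg
          have h0 : R (Finsupp.single (g, j) 1) = 0 := by
            ext ⟨k, j'⟩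
            rw [hR, Finsupp.zero_apply, Finsupp.single_apply, if_neg]
            intro hc
            simp only [em, Prod.mk.injEq] at hc
            exact hg k hc.1.symm
          rw [h0]
          exact Submodule.zero_mem _
    exact hsp (hgen x i)

end Pool.Agent.COST
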