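import Pool.Agent.COSTP.P0

/-!
Tilings: an amenable group has free actions with nearly equivariant maps to a finite set.
-/

set_option autoImplicit false

open scoped ENNReal
open MeasureTheory

namespace Pool.Agent.COST

open Classical in
/-- The Foelner condition: for every finite set `K` and every `ε > 0` there is a nonempty finite
set `A` with `|k A Δ A| ≤ ε |A|` for all `k` in `K`. -/
def Folner (Q : Type) [Group Q] : Prop :=
  ∀ (K : Finset Q) (ε : ℝ), 0 < ε → ∃ A : Finset Q, A.Nonempty ∧
    ∀ k ∈ K, ((symmDiff (A.image fun a => k * a) A).card : ℝ) ≤ ε * A.card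

theorem p2_tie {Q : Type} [Group Q] [Countable Q] (c c' : Q) (hne : c ≠ c') :
    (PMP.shift Q).μ {y : Q → unitInterval | y c = y c'} = 0 := by
  have hmap := Measure.infinitePi_map_eval_prod (P := fun _ : Q => (volume : Measure unitInterval)) hne
  have hm : MeasurableSet {p : unitInterval × unitInterval | p.1 = p.2} := measurableSet_diagonal
  have hdiag : ((volume : Measure unitInterval).prod volume) {p | p.1 = p.2} = 0 := by
    rw [Measure.measure_prod_null hm]
    refine Filter.Eventually.of_forall fun x => ?_
    have : Prod.mk x ⁻¹' {p : unitInterval × unitInterval | p.1 = p.2} = {x} := by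
      ext y
      simp [eq_comm]
    change volume (Prod.mk x ⁻¹' {p : unitInterval × unitInterval | p.1 = p.2}) = 0
    rw [this]
    exact measure_singleton x
  rw [← hmap, Measure.map_apply (by fun_prop) hm] at hdiag
  exact hdiag

/-- `m` has the strictly smallest label in `F` -/
def smin {Q : Type} (F : Finset Q) (m : Q) : Set (Q → unitInterval) :=
  {y | ∀ c ∈ F, c ≠ m → y m < y c}

theorem smin_meas {Q : Type} (F : Finset Q) (m : Q) :
    MeasurableSet (smin F m) := by
  have : smin F m = ⋂ c ∈ F, {y : Q → unitInterval | c ≠ m → y m < y c} := by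
    ext y
    simp [smin]
  rw [this]
  refine Finset.measurableSet_biInter F fun c _ => ?_
  by_cases hc : c = m
  · have : {y : Q → unitInterval | c ≠ m → y m < y c} = Set.univ := by
      ext y
      simp [hc]
    rw [this]
    exact MeasurableSet.univ
  · have : {y : Q → unitInterval | c ≠ m → y m < y c} = {y | y m < y c} := by
      ext y
      simp [hc]
    rw [this]
    exact measurableSet_lt (measurable_pi_apply m) (measurable_pi_apply c)

theorem smin_eq {Q : Type} [Group Q] [Countable Q] (F : Finset Q) (m m' : Q) (hm : m ∈ F)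
    (hm' : m' ∈ F) : (PMP.shift Q).μ (smin F m) = (PMP.shift Q).μ (smin F m') := by
  classical
  have h := shift_mp (G := Equiv.Perm Q) Q unitInterval volume (Equiv.swap m m')
  have h2 := h.measure_preimage (smin_meas F m).nullMeasurableSet
  have h3 : (fun x : Q → unitInterval => fun c => x ((Equiv.swap m m')⁻¹ • c)) ⁻¹' (smin F m) =
      smin F m' := by
    ext y
    have e : ∀ c : Q, (Equiv.swap m m')⁻¹ • c = Equiv.swap m m' c := by
      intro c
      rw [Equiv.swap_inv]
      rfl
    have key : (fun c => y ((Equiv.swap m m')⁻¹ • c)) = fun c => y (Equiv.swap m m' c) := by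
      funext c
      exact congrArg y (e c)
    rw [Set.mem_preimage]
    change (fun c => y ((Equiv.swap m m')⁻¹ • c)) ∈ smin F m ↔ y ∈ smin F m'
    rw [key]
    constructor
    · intro hy c hc hcm
      by_cases h1 : c = m
      · subst h1
        have h5 : y (Equiv.swap c m' c) < y (Equiv.swap c m' m') := hy m' hm' (Ne.symm hcm)
        rw [Equiv.swap_apply_left, Equiv.swap_apply_right] at h5
        exact h5
      · have h5 : y (Equiv.swap m m' m) < y (Equiv.swap m m' c) := hy c hc h1
        rw [Equiv.swap_apply_left, Equiv.swap_apply_of_ne_of_ne h1 hcm] at h5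
        exact h5
    · intro hy c hc hcm
      change y (Equiv.swap m m' m) < y (Equiv.swap m m' c)
      rw [Equiv.swap_apply_left]
      by_cases h1 : c = m'
      · subst h1
        rw [Equiv.swap_apply_right]
        exact hy m hm (Ne.symm hcm)
      · rw [Equiv.swap_apply_of_ne_of_ne hcm h1]
        exact hy c hc h1
  rw [h3] at h2
  exact h2.symm

theorem smin_le {Q : Type} [Group Q] [Countable Q] (F : Finset Q) (m : Q) (hm : m ∈ F) :
    (PMP.shift Q).μ (smin F m) ≤ (F.card : ℝ≥0∞)⁻¹ := by
  have h1 : ∑ q ∈ F, (PMP.shift Q).μ (smin F q) ≤ 1 := by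
    rw [← measure_biUnion_finset]
    · exact prob_le_one
    · intro a ha b hb hab
      refine Set.disjoint_left.mpr fun y hy hy' => ?_
      have h2 := hy b hb (Ne.symm hab)
      have h3 := hy' a ha hab
      exact lt_asymm h2 h3
    · exact fun q _ => smin_meas F q
  rw [Finset.sum_congr rfl fun q hq => smin_eq F q m hq hm, Finset.sum_const, nsmul_eq_mul] at h1
  rw [ENNReal.le_inv_iff_mul_le, mul_comm]
  exact h1

theorem tiling {Q : Type} [Group Q] [Countable Q] (hQ : Folner Q) (K : Finset Q) (δ : ℝ≥0∞)
    (hδ : δ ≠ 0) :
    ∃ (Y : PMP Q) (A : Finset Q) (a : Y.X → Q), (∀ y, a y ∈ A) ∧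
      (∀ q, MeasurableSet {y | a y = q}) ∧ ∀ k ∈ K, Y.μ {y | a y ≠ k * a (k⁻¹ • y)} ≤ δ := by
  classical
  obtain ⟨r, hr0, hr⟩ := ENNReal.lt_iff_exists_nnreal_btwn.mp (pos_iff_ne_zero.mpr hδ)
  have hr0' : (0 : ℝ) < r := by
    have := ENNReal.coe_pos.mp hr0
    exact_mod_cast this
  obtain ⟨A, hA, hK⟩ := hQ K r hr0'
  obtain ⟨ι, hι⟩ := exists_injective_nat Q
  let P : (Q → unitInterval) → Q → Prop := fun y q =>
    q ∈ A ∧ ∀ c ∈ A, y q < y c ∨ (y q = y c ∧ ι q ≤ ι c)
  have hex : ∀ y, ∃ q, P y q := by
    intro y
    obtain ⟨q, hq, hm⟩ := Finset.exists_min_image A (fun c => toLex (y c, ι c)) hA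
    refine ⟨q, hq, fun c hc => ?_⟩
    have := hm c hc
    rw [Prod.Lex.toLex_le_toLex] at this
    exact this
  have huniq : ∀ y q q', P y q → P y q' → q = q' := by
    intro y q q' hq hq'
    apply hι
    rcases hq.2 q' hq'.1 with h1 | h1
    · rcases hq'.2 q hq.1 with h2 | h2
      · exact absurd h1 (not_lt.mpr h2.le)
      · exact absurd h1 (not_lt.mpr h2.1.le)
    · rcases hq'.2 q hq.1 with h2 | h2
      · exact absurd h2 (not_lt.mpr h1.1.le)
      · exact le_antisymm h1.2 h2.2
  choose a ha using hex
  refine ⟨PMP.shift Q, A, a, fun y => (ha y).1, ?_, ?_⟩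
  · intro q
    have e : {y : Q → unitInterval | a y = q} = {y | P y q} := by
      ext y
      constructor
      · rintro rfl
        exact ha y
      · intro h
        exact huniq y _ _ (ha y) h
    have hmeas : MeasurableSet {y : Q → unitInterval | P y q} := by
      by_cases hq : q ∈ A
      · have e2 : {y : Q → unitInterval | P y q} =
            ⋂ c ∈ A, {y : Q → unitInterval | y q < y c ∨ (y q = y c ∧ ι q ≤ ι c)} := by
          ext y
          simp [P, hq]
        rw [e2]
        refine Finset.measurableSet_biInter A fun c _ => ?_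
        have m1 : MeasurableSet {y : Q → unitInterval | y q < y c} :=
          measurableSet_lt (measurable_pi_apply q) (measurable_pi_apply c)
        have m2 : MeasurableSet {y : Q → unitInterval | y q = y c} :=
          measurableSet_eq_fun (measurable_pi_apply q) (measurable_pi_apply c)
        have m3 : MeasurableSet {_y : Q → unitInterval | ι q ≤ ι c} := MeasurableSet.const _
        exact m1.union (m2.inter m3)
      · have e2 : {y : Q → unitInterval | P y q} = ∅ := by
          ext y
          simp [P, hq]
        rw [e2]
        exact MeasurableSet.empty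
    exact (congrArg MeasurableSet e).mpr hmeas
  · intro k hk
    set kA : Finset Q := A.image fun a => k * a with hkA
    set F : Finset Q := A ∪ kA with hF
    have hsub : {y : Q → unitInterval | a y ≠ k * a (fun c => y (k * c))} ⊆
        (⋃ p ∈ F ×ˢ F, {y : Q → unitInterval | p.1 ≠ p.2 ∧ y p.1 = y p.2}) ∪
          ⋃ m ∈ symmDiff kA A, smin F m := by
      intro y hy
      by_cases htie : ∃ p ∈ F ×ˢ F, p.1 ≠ p.2 ∧ y p.1 = y p.2
      · left
        obtain ⟨p, hp, hpp⟩ := htie
        exact Set.mem_biUnion hp hpp
      · right
        push Not at htie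
        have hnt : ∀ c ∈ F, ∀ c' ∈ F, c ≠ c' → y c ≠ y c' := fun c hc c' hc' hcc =>
          htie (c, c') (Finset.mem_product.mpr ⟨hc, hc'⟩) hcc
        set b : Q := k * a (fun c => y (k * c)) with hb
        have hab : a y ≠ b := hy
        have haA : a y ∈ A := (ha y).1
        have hbA : b ∈ kA := Finset.mem_image.mpr ⟨_, (ha _).1, rfl⟩
        have haF : a y ∈ F := Finset.mem_union_left _ haA
        have hbF : b ∈ F := Finset.mem_union_right _ hbA
        have hA1 : ∀ c ∈ A, c ≠ a y → y (a y) < y c := by
          intro c hc hne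
          rcases (ha y).2 c hc with h | h
          · exact h
          · exact absurd h.1 (hnt _ haF c (Finset.mem_union_left _ hc) (Ne.symm hne))
        have hB1 : ∀ c ∈ kA, c ≠ b → y b < y c := by
          intro c hc hne
          obtain ⟨c0, hc0, rfl⟩ := Finset.mem_image.mp hc
          rcases (ha (fun c => y (k * c))).2 c0 hc0 with h | h
          · exact h
          · exact absurd h.1 (hnt _ hbF _ (Finset.mem_union_right _ hc) (Ne.symm hne))
        rcases lt_or_gt_of_ne (hnt _ haF _ hbF hab) with h | h
        · refine Set.mem_biUnion (x := a y) ?_ ?_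
          · rw [Finset.mem_coe, Finset.mem_symmDiff]
            right
            refine ⟨haA, fun hin => ?_⟩
            exact lt_asymm h (hB1 _ hin hab)
          · intro c hc hne
            rcases Finset.mem_union.mp hc with h1 | h1
            · exact hA1 c h1 hne
            · by_cases hcb : c = b
              · rw [hcb]
                exact h
              · exact h.trans (hB1 c h1 hcb)
        · refine Set.mem_biUnion (x := b) ?_ ?_
          · rw [Finset.mem_coe, Finset.mem_symmDiff]
            left
            refine ⟨hbA, fun hin => ?_⟩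
            exact lt_asymm h (hA1 _ hin (Ne.symm hab))
          · intro c hc hne
            rcases Finset.mem_union.mp hc with h1 | h1
            · by_cases hca : c = a y
              · rw [hca]
                exact h
              · exact h.trans (hA1 c h1 hca)
            · exact hB1 c h1 hne
    have heq : {y : (PMP.shift Q).X | a y ≠ k * a (k⁻¹ • y)} =
        {y : Q → unitInterval | a y ≠ k * a (fun c => y (k * c))} := by
      ext y
      have : (k⁻¹ • y : (PMP.shift Q).X) = fun c => y (k * c) := by
        funext c
        change y ((k⁻¹)⁻¹ * c) = y (k * c)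
        rw [inv_inv]
      rw [Set.mem_ofPred_eq, this]
      rfl
    rw [heq]
    refine (measure_mono hsub).trans ?_
    refine (measure_union_le _ _).trans ?_
    have hz : (PMP.shift Q).μ (⋃ p ∈ F ×ˢ F, {y : Q → unitInterval | p.1 ≠ p.2 ∧ y p.1 = y p.2}) = 0 := by
      refine (measure_biUnion_null_iff (Finset.countable_toSet _)).mpr fun p _ => ?_
      by_cases hp : p.1 = p.2
      · refine measure_mono_null (t := ∅) (fun y hy => ?_) measure_empty
        exact absurd hp hy.1
      · refine measure_mono_null (fun y hy => hy.2) (p2_tie p.1 p.2 hp)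
    refine (add_le_add hz.le le_rfl).trans ?_
    refine (zero_add _).le.trans ?_
    refine (measure_biUnion_finset_le _ _).trans ?_
    have hsm : symmDiff kA A ⊆ F := by
      intro m hm
      rw [Finset.mem_symmDiff] at hm
      rcases hm with h | h
      · exact Finset.mem_union_right _ h.1
      · exact Finset.mem_union_left _ h.1
    have hcF : (F.card : ℝ≥0∞) ≠ 0 := by
      have : 0 < F.card := Finset.card_pos.mpr (hA.mono Finset.subset_union_left)
      exact_mod_cast this.ne'
    calc ∑ m ∈ symmDiff kA A, (PMP.shift Q).μ (smin F m)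
        ≤ ∑ _m ∈ symmDiff kA A, (F.card : ℝ≥0∞)⁻¹ :=
          Finset.sum_le_sum fun m hm => smin_le F m (hsm hm)
      _ = ((symmDiff kA A).card : ℝ≥0∞) * (F.card : ℝ≥0∞)⁻¹ := by
          rw [Finset.sum_const, nsmul_eq_mul]
      _ ≤ (r * F.card : ℝ≥0∞) * (F.card : ℝ≥0∞)⁻¹ := by
          gcongr
          have h1 : ((symmDiff kA A).card : ℝ) ≤ r * F.card :=
            (hK k hk).trans (by
              have : (A.card : ℝ) ≤ F.card := by
                exact_mod_cast Finset.card_le_card Finset.subset_union_left
              gcongr)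
          have h2 : (((symmDiff kA A).card : NNReal)) ≤ r * (F.card : NNReal) := by
            exact_mod_cast h1
          exact_mod_cast h2
      _ = r := by
          rw [mul_assoc, ENNReal.mul_inv_cancel hcF (ENNReal.natCast_ne_top _), mul_one]
      _ ≤ δ := hr.le

end Pool.Agent.COST
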