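import Pool.Agent.COSTP.P0

/-!
The dimension of the span of the active translates of finitely many vectors.
-/

set_option autoImplicit false

open scoped ENNReal InnerProductSpace
open MeasureTheory

namespace Pool.Agent.COST

/-- the closure of the range is the closure of the span of the values on basis vectors -/
theorem p3_range {H I S Z : Type} [Group H] [MulAction H Z] (ξ : S → H × I →₀ ℂ)
    (A : S → Set Z) (z : Z) (T : L2 (H × S) →L[ℂ] L2 (H × I))
    (hT1 : ∀ g s, g⁻¹ • z ∈ A s → T (dl (g, s)) = tr g (toL2 (ξ s)))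
    (hT2 : ∀ g s, g⁻¹ • z ∉ A s → T (dl (g, s)) = 0) :
    (genSpan ξ A z).topologicalClosure = (LinearMap.range T.toLinearMap).topologicalClosure := by
  apply le_antisymm
  · refine Submodule.topologicalClosure_mono ?_
    unfold genSpan
    rw [Submodule.span_le]
    rintro _ ⟨g, s, hg, rfl⟩
    exact ⟨dl (g, s), hT1 g s hg⟩
  · refine Submodule.topologicalClosure_minimal _ ?_ (Submodule.isClosed_topologicalClosure _)
    rintro _ ⟨u, rfl⟩
    have h1 : HasSum (fun ω => T (u ω • dl ω)) (T u) := (hasSum_dl u).mapL T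
    refine (Submodule.isClosed_topologicalClosure _).mem_of_tendsto h1
      (Filter.Eventually.of_forall fun t => ?_)
    refine Submodule.sum_mem _ fun ω _ => ?_
    rw [map_smul]
    refine Submodule.smul_mem _ _ (Submodule.le_topologicalClosure _ ?_)
    obtain ⟨g, s⟩ := ω
    by_cases hg : g⁻¹ • z ∈ A s
    · rw [hT1 g s hg]
      exact Submodule.subset_span ⟨g, s, hg, rfl⟩
    · rw [hT2 g s hg]
      exact Submodule.zero_mem _

theorem p3_rd {H I S Z : Type} [Group H] [Fintype I] [MulAction H Z] (ξ : S → H × I →₀ ℂ)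
    (A : S → Set Z) (z : Z) (T : L2 (H × S) →L[ℂ] L2 (H × I))
    (hT1 : ∀ g s, g⁻¹ • z ∈ A s → T (dl (g, s)) = tr g (toL2 (ξ s)))
    (hT2 : ∀ g s, g⁻¹ • z ∉ A s → T (dl (g, s)) = 0) :
    vd (genSpan ξ A z) = rd T := by
  unfold vd rd
  refine Finset.sum_congr rfl fun i _ => ?_
  rw [l0_4_congr _ _ (p3_range ξ A z T hT1 hT2)]

theorem p3_wspan {H I S Z : Type} [Group H] [MulAction H Z] (ξ : S → H × I →₀ ℂ) (z : Z) :
    genSpan ξ (fun _ : S => (Set.univ : Set Z)) z = wspan (Set.range ξ) := by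
  unfold genSpan wspan
  congr 1
  ext f
  constructor
  · rintro ⟨g, s, -, rfl⟩
    exact ⟨g, ξ s, ⟨s, rfl⟩, rfl⟩
  · rintro ⟨g, _, ⟨s, rfl⟩, rfl⟩
    exact ⟨g, s, Set.mem_univ _, rfl⟩

/-- the adjoints of the two operators differ by a coordinate projection -/
theorem p3_adj {H I S Z : Type} [Group H] [Fintype S] [MulAction H Z] (ξ : S → H × I →₀ ℂ)
    (A : S → Set Z) (z : Z) (T T' : L2 (H × S) →L[ℂ] L2 (H × I))
    (hT1 : ∀ g s, g⁻¹ • z ∈ A s → T (dl (g, s)) = tr g (toL2 (ξ s)))
    (hT2 : ∀ g s, g⁻¹ • z ∉ A s → T (dl (g, s)) = 0)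
    (hT' : ∀ g s, T' (dl (g, s)) = tr g (toL2 (ξ s))) :
    rd T'.adjoint ≤ rd T.adjoint + ∑ s, (A s)ᶜ.indicator (fun _ => (1 : ℝ)) z := by
  classical
  let p : H × S → Option (H × S) := fun ω => if ω.1⁻¹ • z ∈ A ω.2 then some ω else none
  have hp : ∀ a b ω, p a = some ω → p b = some ω → a = b := by
    intro a b ω ha hb
    simp only [p] at ha hb
    split_ifs at ha hb
    exact (Option.some.inj ha).trans (Option.some.inj hb).symm
  obtain ⟨D, hD1, hD2⟩ := pre_op p hp
  have hDT : ∀ u, D (T'.adjoint u) = T.adjoint u := by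
    intro u
    apply L2.ext
    rintro ⟨g, s⟩
    rw [hD2]
    have e1 : (T'.adjoint u) (g, s) = ⟪T' (dl (g, s)), u⟫_ℂ := by
      rw [← inner_dl, ContinuousLinearMap.adjoint_inner_right]
    have e2 : (T.adjoint u) (g, s) = ⟪T (dl (g, s)), u⟫_ℂ := by
      rw [← inner_dl, ContinuousLinearMap.adjoint_inner_right]
    by_cases hg : g⁻¹ • z ∈ A s
    · have : p (g, s) = some (g, s) := if_pos hg
      rw [this, Option.elim_some, e1, e2, hT', hT1 g s hg]
    · have : p (g, s) = none := if_neg hg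
      rw [this, Option.elim_none, e2, hT2 g s hg, inner_zero_left]
  unfold rd
  rw [← Finset.sum_add_distrib]
  refine Finset.sum_le_sum fun s _ => ?_
  by_cases hz : z ∈ A s
  · have hDx : D (dl ((1 : H), s)) = dl ((1 : H), s) := by
      apply L2.ext
      rintro ⟨g, t⟩
      rw [hD2]
      by_cases hg : g⁻¹ • z ∈ A t
      · have : p (g, t) = some (g, t) := if_pos hg
        rw [this, Option.elim_some]
      · have : p (g, t) = none := if_neg hg
        rw [this, Option.elim_none]
        have hne : ((1 : H), s) ≠ (g, t) := by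
          rintro h
          obtain ⟨rfl, rfl⟩ := Prod.ext_iff.mp h
          apply hg
          rw [inv_one, one_smul]
          exact hz
        rw [dl_ne (Ne.symm hne)]
    have h1 := proj_le D hD1 (LinearMap.range T'.adjoint.toLinearMap)
      (LinearMap.range T.adjoint.toLinearMap)
      (by
        rintro _ ⟨u, rfl⟩
        exact ⟨u, (hDT u).symm⟩)
      (dl ((1 : H), s)) (by rw [hDx])
    rw [hDx] at h1
    rw [Set.indicator_of_notMem (by simpa using hz), add_zero]
    exact h1
  · rw [Set.indicator_of_mem (by simpa using hz)]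
    have h2 := Submodule.norm_starProjection_apply_le
      (LinearMap.range T'.adjoint.toLinearMap).topologicalClosure (dl ((1 : H), s) : L2 (H × S))
    rw [norm_dl] at h2
    have h3 := pow_le_one₀ (n := 2) (norm_nonneg _) h2
    have h4 := sq_nonneg ‖(LinearMap.range T.adjoint.toLinearMap).topologicalClosure.starProjection
      (dl ((1 : H), s) : L2 (H × S))‖
    linarith

theorem vd_le_genSpan {H I S : Type} [Group H] [Countable H] [Fintype I] [Fintype S] (X : PMP H)
    (ξ : S → H × I →₀ ℂ) (A : S → Set X.X) (hA : ∀ s, MeasurableSet (A s)) :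
    Measurable (fun z => vd (genSpan ξ A z)) ∧
      vd (wspan (Set.range ξ)) ≤
        ∫ z, vd (genSpan ξ A z) ∂X.μ + ∑ s, (X.μ (A s)ᶜ).toReal := by
  classical
  obtain ⟨C, T, F, hC, hTC, hEM, hEqv, hT, hF⟩ := gen_fam X ξ A hA
  obtain ⟨C', T', F', hC', hTC', hEM', hEqv', hT', hF'⟩ :=
    gen_fam X ξ (fun _ => Set.univ) (fun _ => MeasurableSet.univ)
  have hT1 : ∀ z g s, g⁻¹ • z ∈ A s → T z (dl (g, s)) = tr g (toL2 (ξ s)) := by
    intro z g s h
    rw [hT, if_pos h]
  have hT2 : ∀ z g s, g⁻¹ • z ∉ A s → T z (dl (g, s)) = 0 := by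
    intro z g s h
    rw [hT, if_neg h]
  have hT3 : ∀ z g s, T' z (dl (g, s)) = tr g (toL2 (ξ s)) := by
    intro z g s
    rw [hT', if_pos (Set.mem_univ _)]
  have hvd : ∀ z, vd (genSpan ξ A z) = rd (T z) := fun z =>
    p3_rd ξ A z (T z) (hT1 z) (hT2 z)
  have hvd' : ∀ z, vd (wspan (Set.range ξ)) = rd (T' z) := by
    intro z
    rw [← p3_wspan ξ z]
    exact p3_rd ξ _ z (T' z) (fun g s _ => hT3 z g s) (fun g s h => absurd (Set.mem_univ _) h)
  obtain ⟨hm1, hm2, hint⟩ := rd_adj X T hEM hEqv C hTC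
  obtain ⟨hm1', hm2', hint'⟩ := rd_adj X T' hEM' hEqv' C' hTC'
  have hfun : (fun z => vd (genSpan ξ A z)) = fun z => rd (T z) := funext hvd
  rw [hfun]
  refine ⟨hm1, ?_⟩
  have hc : vd (wspan (Set.range ξ)) = ∫ z, rd (T' z).adjoint ∂X.μ := by
    rw [← hint']
    have : (fun z => rd (T' z)) = fun _ => vd (wspan (Set.range ξ)) := by
      funext z
      rw [hvd' z]
    rw [this, integral_const, probReal_univ, one_smul]
  rw [hc, hint]
  have h2 : ∀ s, Integrable (fun z => (A s)ᶜ.indicator (fun _ => (1 : ℝ)) z) X.μ := fun s =>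
    (integrable_const (1 : ℝ)).indicator (hA s).compl
  have h3 : Integrable (fun z => rd (T z).adjoint) X.μ := by
    refine Integrable.of_bound hm2.aestronglyMeasurable (Fintype.card S : ℝ) ?_
    refine Filter.Eventually.of_forall fun z => ?_
    obtain ⟨h4, h5⟩ := rd_bound (T z).adjoint
    rw [Real.norm_eq_abs, abs_of_nonneg h4]
    exact h5
  have h4 : Integrable (fun z => rd (T' z).adjoint) X.μ := by
    refine Integrable.of_bound hm2'.aestronglyMeasurable (Fintype.card S : ℝ) ?_
    refine Filter.Eventually.of_forall fun z => ?_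
    obtain ⟨h4, h5⟩ := rd_bound (T' z).adjoint
    rw [Real.norm_eq_abs, abs_of_nonneg h4]
    exact h5
  have h5 : Integrable (fun z => ∑ s, (A s)ᶜ.indicator (fun _ => (1 : ℝ)) z) X.μ :=
    integrable_finsetSum _ fun s _ => h2 s
  calc ∫ z, rd (T' z).adjoint ∂X.μ
      ≤ ∫ z, (rd (T z).adjoint + ∑ s, (A s)ᶜ.indicator (fun _ => (1 : ℝ)) z) ∂X.μ :=
        integral_mono h4 (h3.add h5) fun z =>
          p3_adj ξ A z (T z) (T' z) (hT1 z) (hT2 z) (hT3 z)
    _ = ∫ z, rd (T z).adjoint ∂X.μ + ∑ s, (X.μ (A s)ᶜ).toReal := by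
        rw [integral_add h3 h5, integral_finsetSum _ fun s _ => h2 s]
        congr 1
        apply Finset.sum_congr rfl
        intro s _
        rw [integral_indicator (hA s).compl, setIntegral_const, smul_eq_mul, mul_one]
        rfl

end Pool.Agent.COST
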