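import Pool.Agent.COSTP.P5
import Pool.Agent.COSTP.P2

/-!
Extensions with amenable quotient: algebra of the tiles.
-/

set_option autoImplicit false

open scoped ENNReal InnerProductSpace
open MeasureTheory

namespace Pool.Agent.COST

/-- representatives of the cosets -/
noncomputable def csr {G : Type} [Group G] (N : Subgroup G) (q : G ⧸ N) : G := q.out

theorem csr_spec {G : Type} [Group G] (N : Subgroup G) (q : G ⧸ N) : ((csr N q : G) : G ⧸ N) = q :=
  QuotientGroup.out_eq' q

theorem cls_mul {G : Type} [Group G] (N : Subgroup G) [N.Normal] (n : N) (g : G) :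
    (((n : G) * g : G) : G ⧸ N) = (g : G ⧸ N) := by
  rw [QuotientGroup.mk_mul, (QuotientGroup.eq_one_iff (n : G)).mpr n.2, one_mul]

theorem cls_csr {G : Type} [Group G] (N : Subgroup G) [N.Normal] (n : N) (b : G ⧸ N) :
    (((n : G) * csr N b : G) : G ⧸ N) = b := by
  rw [cls_mul, csr_spec]

/-- coordinates on a union of cosets -/
noncomputable def em {G : Type} [Group G] (N : Subgroup G) {I : Type} (τ : Finset (G ⧸ N)) :
    N × (τ × I) → G × I := fun p => ((p.1 : G) * csr N p.2.1, p.2.2)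

theorem em_inj {G : Type} [Group G] (N : Subgroup G) [N.Normal] {I : Type} (τ : Finset (G ⧸ N)) :
    Function.Injective (em N (I := I) τ) := by
  rintro ⟨n, ⟨b, i⟩⟩ ⟨n', ⟨b', i'⟩⟩ h
  simp only [em, Prod.mk.injEq] at h
  obtain ⟨h1, h2⟩ := h
  have h3 : b = b' := by
    apply Subtype.ext
    have h5 : (((n : G) * csr N b : G) : G ⧸ N) = (((n' : G) * csr N b' : G) : G ⧸ N) := by rw [h1]
    rw [cls_csr, cls_csr] at h5
    exact h5
  subst h3
  have h4 : n = n' := Subtype.ext (mul_right_cancel h1)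
  rw [h4, h2]

/-- vectors over the normal subgroup whose images are translates of the given vectors -/
def WW {G : Type} [Group G] (N : Subgroup G) {I S : Type} (ξ : S → G × I →₀ ℂ)
    (τ : Finset (G ⧸ N)) : Set (N × (τ × I) →₀ ℂ) :=
  {u | ∃ g s, Finsupp.mapDomain (em N τ) u = ltr g (ξ s)}

theorem ext_gen {G : Type} [Group G] (N : Subgroup G) {I S : Type}
    (ξ : S → G × I →₀ ℂ) (τ : Finset (G ⧸ N)) {X₀ : Type} [MulAction N X₀]
    (T₀ : τ × I → Set X₀) {X : Type} [MulAction G X] (T : I → Set X) (x : X) (b : τ) (i : I)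
    (x₀ : X₀)
    (hgen : Finsupp.single ((1 : N), (b, i)) (1 : ℂ) ∈ gspan (WW N ξ τ) T₀ x₀)
    (hT : ∀ (n : N) (b' : τ) (j : I), n⁻¹ • x₀ ∈ T₀ (b', j) →
      ((csr N b)⁻¹ * ((n : G) * csr N b'))⁻¹ • x ∈ T j) :
    Finsupp.single ((1 : G), i) (1 : ℂ) ∈ gspan (Set.range ξ) T x := by
  let Φ : (N × (τ × I) →₀ ℂ) →ₗ[ℂ] (G × I →₀ ℂ) :=
    (ltr (csr N b)⁻¹) ∘ₗ (Finsupp.lmapDomain ℂ ℂ (em N τ))
  have hΦs : ∀ (n : N) (b' : τ) (j : I), Φ (Finsupp.single (n, (b', j)) 1) =
      Finsupp.single ((csr N b)⁻¹ * ((n : G) * csr N b'), j) 1 := by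
    intro n b' j
    simp only [Φ, LinearMap.comp_apply, Finsupp.lmapDomain_apply, Finsupp.mapDomain_single]
    change ltr (csr N b)⁻¹ (Finsupp.single ((n : G) * csr N b', j) 1) = _
    rw [ltr_single]
  have h1 : Φ (Finsupp.single ((1 : N), (b, i)) 1) = Finsupp.single ((1 : G), i) 1 := by
    rw [hΦs]
    have : (csr N (b : G ⧸ N))⁻¹ * (((1 : N) : G) * csr N b) = 1 := by
      rw [Subgroup.coe_one, one_mul, inv_mul_cancel]
    rw [this]
  rw [← h1]
  have hsp : gspan (WW N ξ τ) T₀ x₀ ≤ (gspan (Set.range ξ) T x).comap Φ := by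
    conv_lhs => unfold gspan
    rw [Submodule.span_le]
    rintro u (⟨n, w, ⟨g, s, hw⟩, rfl⟩ | ⟨n, ⟨b', j⟩, hj, rfl⟩)
    · apply Submodule.subset_span
      left
      refine ⟨(csr N b)⁻¹ * ((n : G) * g), ξ s, ⟨s, rfl⟩, ?_⟩
      rw [ltr_mul, ltr_mul, ← hw]
      simp only [Φ, LinearMap.comp_apply, Finsupp.lmapDomain_apply]
      apply congrArg
      unfold ltr
      rw [Finsupp.lmapDomain_apply, Finsupp.lmapDomain_apply, ← Finsupp.mapDomain_comp,
        ← Finsupp.mapDomain_comp]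
      apply congrArg (fun f => Finsupp.mapDomain f w)
      funext ⟨m, ⟨b', j⟩⟩
      simp only [Function.comp_apply, em, Subgroup.coe_mul, mul_assoc]
    · apply Submodule.subset_span
      right
      exact ⟨(csr N b)⁻¹ * ((n : G) * csr N b'), j, hT n b' j hj, hΦs n b' j⟩
  exact hsp hgen

open Classical in
/-- the tile with centre 1 -/
noncomputable def tau {Q Y : Type} [Group Q] [MulAction Q Y] (B : Finset Q) (a : Y → Q) (y : Y) :
    Finset Q := B.filter fun b => a (b⁻¹ • y) = b⁻¹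

theorem mem_tau {Q Y : Type} [Group Q] [MulAction Q Y] (B : Finset Q) (a : Y → Q)
    (hB : ∀ y, (a y)⁻¹ ∈ B) (y : Y) (b : Q) : b ∈ tau B a y ↔ a (b⁻¹ • y) = b⁻¹ := by
  classical
  unfold tau
  rw [Finset.mem_filter]
  constructor
  · exact fun h => h.2
  · intro h
    refine ⟨?_, h⟩
    have := hB (b⁻¹ • y)
    rw [h, inv_inv] at this
    exact this

/-- points whose tile contains all the neighbours -/
def good {G : Type} [Group G] (N : Subgroup G) [N.Normal] {Y : Type} [MulAction (G ⧸ N) Y]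
    (F : Finset G) (a : Y → G ⧸ N) : Set Y :=
  {y | ∀ h ∈ F, a y = (h : G ⧸ N) * a ((h : G ⧸ N)⁻¹ • y)}

theorem ext_proj {G : Type} [Group G] (N : Subgroup G) [N.Normal] {I S : Type} 
    (ξ : S → G × I →₀ ℂ) (F : Finset G)
    (hF : ∀ s g i, ξ s (g, i) ≠ 0 → g ∈ F) {Y : Type} [MulAction (G ⧸ N) Y] [MulAction G Y]
    (hact : ∀ (g : G) (y : Y), g • y = (g : G ⧸ N) • y) (B : Finset (G ⧸ N)) (a : Y → G ⧸ N)
    (hB : ∀ y, (a y)⁻¹ ∈ B) (y : Y) (b : G ⧸ N) (τ : Finset (G ⧸ N)) (hτ : tau B a y = τ)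
    (hb : b ∈ τ) (i : I) :
    ‖(genSpan ξ (fun _ => good N F a) ((csr N b)⁻¹ • y)).topologicalClosure.starProjection
        (dl ((1 : G), i))‖ ^ 2 ≤
      ‖(wspan (WW N ξ τ)).topologicalClosure.starProjection
        (dl ((1 : N), ((⟨b, hb⟩ : τ), i)))‖ ^ 2 := by
  classical
  obtain ⟨E, hE, hEa⟩ := pre_op
    (fun p : N × (τ × I) => some ((csr N b)⁻¹ * (em N τ p).1, (em N τ p).2)) (by
      intro p q ω h1 h2
      simp only [Option.some.injEq] at h1 h2
      have h3 := h1.trans h2.symm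
      simp only [Prod.mk.injEq, mul_right_inj] at h3
      exact em_inj N τ (Prod.ext h3.1 h3.2))
  have hEv : ∀ (f : L2 (G × I)) (n : N) (b' : τ) (j : I),
      E f (n, (b', j)) = f ((csr N b)⁻¹ * ((n : G) * csr N b'), j) := fun f n b' j => hEa f _
  have hdl : E (dl ((1 : G), i)) = dl ((1 : N), ((⟨b, hb⟩ : τ), i)) := by
    apply L2.ext
    rintro ⟨n, ⟨b', j⟩⟩
    rw [hEv]
    by_cases h : ((n, (b', j)) : N × (τ × I)) = (1, ((⟨b, hb⟩ : τ), i))
    · have h' : (((csr N b)⁻¹ * ((n : G) * csr N b'), j) : G × I) = (1, i) := by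
        simp only [Prod.mk.injEq] at h ⊢
        refine ⟨?_, h.2.2⟩
        rw [h.1, h.2.1, Subgroup.coe_one, one_mul, inv_mul_cancel]
      rw [h, h', dl_self, dl_self]
    · have h' : (((csr N b)⁻¹ * ((n : G) * csr N b'), j) : G × I) ≠ (1, i) := by
        intro h2
        apply h
        simp only [Prod.mk.injEq] at h2
        have h3 : em N τ (n, (b', j)) = em N τ (1, ((⟨b, hb⟩ : τ), i)) := by
          simp only [em, Prod.mk.injEq, Subgroup.coe_one, one_mul]
          exact ⟨(inv_mul_eq_one.mp h2.1).symm, h2.2⟩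
        exact em_inj N τ h3
      rw [dl_ne h, dl_ne h']
  rw [← hdl]
  apply proj_le E hE
  · intro u hu
    have hsp : genSpan ξ (fun _ => good N F a) ((csr N b)⁻¹ • y) ≤
        (wspan (WW N ξ τ)).comap E.toLinearMap := by
      conv_lhs => unfold genSpan
      rw [Submodule.span_le]
      rintro _ ⟨g, s, hg, rfl⟩
      change E (tr g (toL2 (ξ s))) ∈ wspan (WW N ξ τ)
      -- the centre
      set g' : G := csr N b * g with hg'
      have hg2 : ((g' : G) : G ⧸ N)⁻¹ • y ∈ good N F a := by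
        have e : g⁻¹ • (csr N b)⁻¹ • y = ((g' : G) : G ⧸ N)⁻¹ • y := by
          rw [← mul_smul, ← mul_inv_rev, ← hg', hact, QuotientGroup.mk_inv]
        rw [← e]
        exact hg
      have hval : ∀ (n : N) (b' : τ) (j : I), E (tr g (toL2 (ξ s))) (n, (b', j)) =
          ξ s (g'⁻¹ * ((n : G) * csr N b'), j) := by
        intro n b' j
        rw [hEv, tr_toL2, hg', mul_inv_rev, mul_assoc]
      by_cases hc : a (((g' : G) : G ⧸ N)⁻¹ • y) = ((g' : G) : G ⧸ N)⁻¹
      · -- centre 1
        have htau : ∀ h ∈ F, (((g' * h : G)) : G ⧸ N) ∈ τ := by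
          intro h hh
          rw [← hτ, mem_tau B a hB]
          have h1 := hg2 h hh
          rw [hc] at h1
          rw [QuotientGroup.mk_mul, mul_inv_rev, mul_smul]
          rw [← mul_right_inj (h : G ⧸ N), ← h1, mul_inv_cancel_left]
        have hsub : ((ltr g' (ξ s)).support : Set (G × I)) ⊆ Set.range (em N (I := I) τ) := by
          rintro ⟨k, j⟩ hk
          rw [Finset.mem_coe, Finsupp.mem_support_iff, ltr_apply] at hk
          have h1 := hF s _ _ hk
          have h2 := htau _ h1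
          rw [mul_inv_cancel_left] at h2
          have h3 : k * (csr N (k : G ⧸ N))⁻¹ ∈ N := by
            rw [← QuotientGroup.eq_one_iff, QuotientGroup.mk_mul, QuotientGroup.mk_inv, csr_spec,
              mul_inv_cancel]
          refine ⟨(⟨_, h3⟩, (⟨_, h2⟩, j)), ?_⟩
          simp only [em, inv_mul_cancel_right]
        apply Submodule.subset_span
        refine ⟨1, (ltr g' (ξ s)).comapDomain (em N τ) (em_inj N τ).injOn, ⟨g', s, ?_⟩, ?_⟩
        · exact Finsupp.mapDomain_comapDomain _ (em_inj N τ) _ hsub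
        · rw [tr_one]
          apply L2.ext
          rintro ⟨n, ⟨b', j⟩⟩
          rw [hval, toL2_apply, Finsupp.comapDomain_apply]
          change _ = ltr g' (ξ s) ((n : G) * csr N b', j)
          rw [ltr_apply]
      · -- another centre
        have h0 : E (tr g (toL2 (ξ s))) = 0 := by
          apply L2.ext
          rintro ⟨n, ⟨b', j⟩⟩
          rw [hval]
          change ξ s (g'⁻¹ * ((n : G) * csr N b'), j) = 0
          by_contra hne
          apply hc
          have h1 := hg2 _ (hF s _ _ hne)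
          rw [h1, QuotientGroup.mk_mul, QuotientGroup.mk_inv, cls_csr]
          have h2 : a ((b' : G ⧸ N)⁻¹ • y) = (b' : G ⧸ N)⁻¹ := by
            rw [← mem_tau B a hB, hτ]
            exact b'.2
          rw [← mul_smul, mul_inv_rev, inv_inv, mul_inv_cancel_right, h2, mul_assoc,
            mul_inv_cancel, mul_one]
        rw [h0]
        exact Submodule.zero_mem _
    exact hsp hu
  · rw [hdl, norm_dl, norm_dl]

end Pool.Agent.COST
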