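import Pool.Agent.COSTP.P4a
import Pool.Agent.COSTP.P3

/-!
Extensions with amenable quotient: integration over the tiles.
-/

set_option autoImplicit false

open scoped ENNReal InnerProductSpace
open MeasureTheory

namespace Pool.Agent.COST

theorem lint_fin {Y β : Type} [MeasurableSpace Y] (μ : Measure Y) (t : Y → β) (R : Finset β)
    (hR : ∀ y, t y ∈ R) (hm : ∀ r ∈ R, MeasurableSet {y | t y = r}) (F : β → ℝ≥0∞) :
    ∫⁻ y, F (t y) ∂μ = ∑ r ∈ R, μ {y | t y = r} * F r := by
  classical
  have h1 : ∀ y, F (t y) = ∑ r ∈ R, Set.indicator {y | t y = r} (fun _ => F r) y := by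
    intro y
    rw [Finset.sum_eq_single (t y)]
    · rw [Set.indicator_of_mem]
      rfl
    · intro r _ hr
      rw [Set.indicator_of_notMem]
      intro h
      exact hr h.symm
    · intro h
      exact absurd (hR y) h
  simp only [h1]
  rw [lintegral_finsetSum]
  · apply Finset.sum_congr rfl
    intro r hr
    rw [lintegral_indicator_const (hm r hr), mul_comm]
  · intro r hr
    exact measurable_const.indicator (hm r hr)

theorem meas_shift {Q : Type} [Group Q] (Y : PMP Q) (a : Y.X → Q)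
    (ha : ∀ q, MeasurableSet {y | a y = q}) (q r : Q) : MeasurableSet {y | a (q • y) = r} :=
  (Y.mp q).measurable (ha r)

theorem meas_tau {Q : Type} [Group Q] (Y : PMP Q) (B : Finset Q) (a : Y.X → Q)
    (ha : ∀ q, MeasurableSet {y | a y = q}) (τ : Finset Q) :
    MeasurableSet {y | tau B a y = τ} := by
  classical
  by_cases hτ : τ ⊆ B
  · have e : {y | tau B a y = τ} = ⋂ b ∈ B, {y | a (b⁻¹ • y) = b⁻¹ ↔ b ∈ τ} := by
      ext y
      simp only [Set.mem_ofPred_eq, Set.mem_iInter]
      constructor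
      · intro h b hb
        rw [← h]
        unfold tau
        rw [Finset.mem_filter]
        exact ⟨fun h => ⟨hb, h⟩, fun h => h.2⟩
      · intro h
        ext b
        unfold tau
        rw [Finset.mem_filter]
        exact ⟨fun h2 => (h b h2.1).mp h2.2, fun h2 => ⟨hτ h2, (h b (hτ h2)).mpr h2⟩⟩
    rw [e]
    apply Finset.measurableSet_biInter
    intro b _
    by_cases hb : b ∈ τ
    · simp only [hb, iff_true]
      exact meas_shift Y a ha _ _
    · simp only [hb, iff_false]
      exact (meas_shift Y a ha _ _).compl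
  · have e : {y | tau B a y = τ} = ∅ := by
      ext y
      simp only [Set.mem_ofPred_eq, Set.mem_empty_iff_false, iff_false]
      intro h
      apply hτ
      rw [← h]
      exact Finset.filter_subset _ _
    rw [e]
    exact MeasurableSet.empty

theorem tau_powerset {Q Y : Type} [Group Q] [MulAction Q Y] (B : Finset Q) (a : Y → Q) (y : Y) :
    tau B a y ∈ B.powerset := by
  classical
  rw [Finset.mem_powerset]
  exact Finset.filter_subset _ _

theorem tau_sum {Q : Type} [Group Q] (Y : PMP Q) (B : Finset Q) (a : Y.X → Q)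
    (ha : ∀ q, MeasurableSet {y | a y = q}) :
    ∑ τ ∈ B.powerset, Y.μ {y | tau B a y = τ} ≤ 1 := by
  have h := lint_fin Y.μ (tau B a) B.powerset (tau_powerset B a) (fun τ _ => meas_tau Y B a ha τ)
    (fun _ => 1)
  simp only [mul_one] at h
  rw [← h, lintegral_const, one_mul, measure_univ]

theorem tau_card {Q : Type} [Group Q] (Y : PMP Q) (B : Finset Q) (a : Y.X → Q)
    (ha : ∀ q, MeasurableSet {y | a y = q}) :
    ∑ τ ∈ B.powerset, Y.μ {y | tau B a y = τ} * (τ.card : ℝ≥0∞) ≤ 1 := by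
  classical
  rw [← lint_fin Y.μ (tau B a) B.powerset (tau_powerset B a) (fun τ _ => meas_tau Y B a ha τ)
    (fun τ => (τ.card : ℝ≥0∞))]
  have h1 : ∀ y, ((tau B a y).card : ℝ≥0∞) =
      ∑ b ∈ B, Set.indicator {y | a (b⁻¹ • y) = b⁻¹} (fun _ => (1 : ℝ≥0∞)) y := by
    intro y
    unfold tau
    rw [Finset.card_filter]
    push_cast
    apply Finset.sum_congr rfl
    intro b _
    by_cases h : a (b⁻¹ • y) = b⁻¹
    · rw [if_pos h, Set.indicator_of_mem (s := {y | a (b⁻¹ • y) = b⁻¹}) h]
    · rw [if_neg h, Set.indicator_of_notMem (s := {y | a (b⁻¹ • y) = b⁻¹}) h]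
  simp only [h1]
  rw [lintegral_finsetSum]
  · have h2 : ∀ b ∈ B, ∫⁻ y, Set.indicator {y | a (b⁻¹ • y) = b⁻¹} (fun _ => (1 : ℝ≥0∞)) y ∂Y.μ =
        Y.μ {y | a y = b⁻¹} := by
      intro b _
      rw [lintegral_indicator_const (meas_shift Y a ha _ _), one_mul]
      exact (Y.mp b⁻¹).measure_preimage (ha b⁻¹).nullMeasurableSet
    rw [Finset.sum_congr rfl h2, ← measure_biUnion_finset]
    · exact prob_le_one
    · intro b _ b' _ hbb'
      rw [Function.onFun, Set.disjoint_left]
      intro y hy hy'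
      apply hbb'
      rw [Set.mem_ofPred_eq] at hy hy'
      rw [hy] at hy'
      exact inv_injective hy'
    · intro b _
      exact ha _
  · intro b _
    exact measurable_const.indicator (meas_shift Y a ha _ _)

theorem meas_good {G : Type} [Group G] [Countable G] (N : Subgroup G) [N.Normal] (Y : PMP (G ⧸ N))
    (F : Finset G) (a : Y.X → G ⧸ N) (ha : ∀ q, MeasurableSet {y | a y = q}) :
    (∀ h : G, MeasurableSet {y | a y ≠ (h : G ⧸ N) * a ((h : G ⧸ N)⁻¹ • y)}) ∧
      MeasurableSet (good N F a) := by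
  have hc : Countable (G ⧸ N) := Quotient.countable
  have h1 : ∀ h : G, MeasurableSet {y | a y = (h : G ⧸ N) * a ((h : G ⧸ N)⁻¹ • y)} := by
    intro h
    have e : {y | a y = (h : G ⧸ N) * a ((h : G ⧸ N)⁻¹ • y)} =
        ⋃ q : G ⧸ N, ({y | a y = (h : G ⧸ N) * q} ∩ {y | a ((h : G ⧸ N)⁻¹ • y) = q}) := by
      ext y
      simp only [Set.mem_ofPred_eq, Set.mem_iUnion, Set.mem_inter_iff]
      constructor
      · intro h2
        exact ⟨_, h2, rfl⟩
      · rintro ⟨q, h2, h3⟩
        rw [h2, h3]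
    rw [e]
    exact MeasurableSet.iUnion fun q => (ha _).inter (meas_shift Y a ha _ _)
  refine ⟨fun h => (h1 h).compl, ?_⟩
  have e : good N F a = ⋂ h ∈ F, {y | a y = (h : G ⧸ N) * a ((h : G ⧸ N)⁻¹ • y)} := by
    ext y
    simp only [good, Set.mem_ofPred_eq, Set.mem_iInter]
  rw [e]
  exact Finset.measurableSet_biInter _ fun h _ => h1 h

theorem ext_dim {G : Type} [Group G] [Countable G] (N : Subgroup G) [N.Normal] {I S : Type}
    [Fintype I] [Fintype S] (ξ : S → G × I →₀ ℂ) (F : Finset G)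
    (hF : ∀ s g i, ξ s (g, i) ≠ 0 → g ∈ F) (Y : PMP (G ⧸ N)) (a : Y.X → G ⧸ N)
    (ha : ∀ q, MeasurableSet {y | a y = q}) (B : Finset (G ⧸ N)) (hB : ∀ y, (a y)⁻¹ ∈ B) :
    ENNReal.ofReal (vd (wspan (Set.range ξ))) ≤
      ∑ τ ∈ B.powerset, Y.μ {y | tau B a y = τ} * ENNReal.ofReal (vd (wspan (WW N ξ τ))) +
        Fintype.card S * Y.μ (good N F a)ᶜ := by
  classical
  let Y' : PMP G := PMP.res (QuotientGroup.mk' N) Y
  let A : S → Set Y'.X := fun _ => (show Set Y.X from good N F a)
  have hA : ∀ s, MeasurableSet (A s) := fun s => (meas_good N Y F a ha).2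
  obtain ⟨hm, hle⟩ := vd_le_genSpan Y' ξ A hA
  let D : Y'.X → ℝ := fun z => vd (genSpan ξ A z)
  have hD0 : ∀ z, 0 ≤ D z := fun z => (l0_7_vd _).1
  have hD1 : ∀ z, D z ≤ Fintype.card I := fun z => (l0_7_vd _).2
  have hint : Integrable D Y'.μ := by
    apply Integrable.of_bound hm.aestronglyMeasurable (Fintype.card I : ℝ)
    refine Filter.Eventually.of_forall fun z => ?_
    rw [Real.norm_eq_abs, abs_of_nonneg (hD0 z)]
    exact hD1 z
  have h1 : ENNReal.ofReal (vd (wspan (Set.range ξ))) ≤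
      ∫⁻ z, ENNReal.ofReal (D z) ∂Y'.μ + Fintype.card S * Y.μ (good N F a)ᶜ := by
    rw [← ofReal_integral_eq_lintegral_ofReal hint (Filter.Eventually.of_forall hD0)]
    refine (ENNReal.ofReal_le_ofReal hle).trans (ENNReal.ofReal_add_le.trans ?_)
    apply add_le_add le_rfl
    change ENNReal.ofReal (∑ _s : S, (Y.μ (good N F a)ᶜ).toReal) ≤ _
    rw [Finset.sum_const, Finset.card_univ, nsmul_eq_mul, ENNReal.ofReal_mul (Nat.cast_nonneg _),
      ENNReal.ofReal_natCast]
    apply mul_le_mul_right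
    rw [ENNReal.ofReal_toReal (measure_ne_top _ _)]
  refine h1.trans (add_le_add ?_ le_rfl)
  -- localisation at the centres
  let f : G ⧸ N → Y'.X → ℝ≥0∞ := fun b => Set.indicator {y | a y = b⁻¹} (fun y => ENNReal.ofReal (D y))
  have hfm : ∀ b, Measurable (f b) := fun b => (hm.ennreal_ofReal).indicator (ha _)
  have h2 : ∀ y, ENNReal.ofReal (D y) = ∑ b ∈ B, f b y := by
    intro y
    rw [Finset.sum_eq_single (a y)⁻¹]
    · simp only [f]
      rw [Set.indicator_of_mem]
      simp
    · intro b _ hb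
      simp only [f]
      rw [Set.indicator_of_notMem]
      intro h
      rw [Set.mem_ofPred_eq] at h
      exact hb (by rw [h, inv_inv])
    · intro h
      exact absurd (hB y) h
  have h3 : ∫⁻ z, ENNReal.ofReal (D z) ∂Y'.μ =
      ∫⁻ z, ∑ b ∈ B, f b ((csr N b)⁻¹ • z) ∂Y'.μ := by
    have e2 : ∫⁻ z, ∑ b ∈ B, f b ((csr N b)⁻¹ • z) ∂Y'.μ =
        ∑ b ∈ B, ∫⁻ z, f b ((csr N b)⁻¹ • z) ∂Y'.μ :=
      lintegral_finsetSum _ (fun b _ => (hfm b).comp (Y'.mp _).measurable)
    rw [e2]
    simp only [h2]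
    rw [lintegral_finsetSum _ (fun b _ => hfm b)]
    apply Finset.sum_congr rfl
    intro b _
    exact ((Y'.mp (csr N b)⁻¹).lintegral_comp (hfm b)).symm
  rw [h3]
  have h4 : ∀ z : Y'.X, ∑ b ∈ B, f b ((csr N b)⁻¹ • z) ≤
      ENNReal.ofReal (vd (wspan (WW N ξ (tau B a z)))) := by
    intro z
    set τ := tau B a z with hτ
    have hact : ∀ (g : G) (y : Y'.X), g • y = ((g : G ⧸ N) • (show Y.X from y) : Y.X) := fun g y => rfl
    have h5 : ∀ b, f b ((csr N b)⁻¹ • z) ≤ if h : b ∈ τ then
        ENNReal.ofReal (∑ i, ‖(wspan (WW N ξ τ)).topologicalClosure.starProjection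
          (dl ((1 : N), ((⟨b, h⟩ : τ), i)))‖ ^ 2) else 0 := by
      intro b
      by_cases hb : b ∈ τ
      · rw [dif_pos hb]
        simp only [f]
        refine (Set.indicator_le_self _ _ _).trans ?_
        apply ENNReal.ofReal_le_ofReal
        simp only [D, vd]
        apply Finset.sum_le_sum
        intro i _
        exact @ext_proj G _ N _ I S ξ F hF Y.X Y.act Y'.act hact B a hB z b τ hτ.symm hb i
      · rw [dif_neg hb]
        simp only [f]
        rw [Set.indicator_of_notMem]
        intro h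
        apply hb
        rw [hτ, mem_tau B a hB]
        have h6 := hact (csr N b)⁻¹ z
        rw [QuotientGroup.mk_inv, csr_spec] at h6
        rw [← h6]
        exact h
    calc ∑ b ∈ B, f b ((csr N b)⁻¹ • z) ≤ ∑ b ∈ B, (if h : b ∈ τ then
        ENNReal.ofReal (∑ i, ‖(wspan (WW N ξ τ)).topologicalClosure.starProjection
          (dl ((1 : N), ((⟨b, h⟩ : τ), i)))‖ ^ 2) else 0) := Finset.sum_le_sum fun b _ => h5 b
      _ = ∑ b ∈ τ, (if h : b ∈ τ then
        ENNReal.ofReal (∑ i, ‖(wspan (WW N ξ τ)).topologicalClosure.starProjection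
          (dl ((1 : N), ((⟨b, h⟩ : τ), i)))‖ ^ 2) else 0) := by
          symm
          apply Finset.sum_subset (Finset.mem_powerset.mp (tau_powerset B a z))
          intro b _ hb
          rw [dif_neg hb]
      _ = ∑ b : τ, ENNReal.ofReal (∑ i, ‖(wspan (WW N ξ τ)).topologicalClosure.starProjection
          (dl ((1 : N), (b, i)))‖ ^ 2) := by
          rw [← Finset.sum_coe_sort]
          apply Finset.sum_congr rfl
          intro b _
          rw [dif_pos b.2]
      _ = ENNReal.ofReal (vd (wspan (WW N ξ τ))) := by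
          unfold vd
          rw [Fintype.sum_prod_type, ENNReal.ofReal_sum_of_nonneg]
          intro b _
          positivity
  refine (lintegral_mono h4).trans (le_of_eq ?_)
  exact lint_fin Y.μ (tau B a) B.powerset (tau_powerset B a) (fun τ _ => meas_tau Y B a ha τ)
    (fun τ => ENNReal.ofReal (vd (wspan (WW N ξ τ))))

end Pool.Agent.COST
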