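import Pool.Agent.COSTP.P4b

/-!
The rank property passes to extensions with amenable quotient.
-/

set_option autoImplicit false

open scoped ENNReal InnerProductSpace
open MeasureTheory

namespace Pool.Agent.COST

theorem gspan_mono {H I X : Type} [Group H] [MulAction H X] {W W' : Set (H × I →₀ ℂ)}
    (h : W ⊆ W') (T : I → Set X) (x : X) : gspan W T x ≤ gspan W' T x := by
  unfold gspan
  apply Submodule.span_mono
  apply Set.union_subset_union_left
  rintro f ⟨g, w, hw, rfl⟩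
  exact ⟨g, w, h hw, rfl⟩

/-- The rank property passes to extensions with amenable quotient. -/
theorem RankProp.ext {G : Type} [Group G] [Countable G] (N : Subgroup G) [N.Normal]
    (hN : RankProp N) (hQ : Folner (G ⧸ N)) : RankProp G := by
  classical
  have hcQ : Countable (G ⧸ N) := Quotient.countable
  intro I _ W ε hε
  have hε3 : ε / 3 ≠ 0 := by
    rw [Ne, ENNReal.div_eq_zero_iff]
    push Not
    exact ⟨hε, by simp⟩
  obtain ⟨η, hη, hηε⟩ : ∃ η : ℝ, 0 < η ∧ ENNReal.ofReal η ≤ ε / 3 := by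
    by_cases htop : ε / 3 = ⊤
    · exact ⟨1, one_pos, by rw [htop]; exact le_top⟩
    · refine ⟨(ε / 3).toReal, ENNReal.toReal_pos hε3 htop, ?_⟩
      rw [ENNReal.ofReal_toReal htop]
  obtain ⟨W1, hW1, hW1'⟩ := fin_approx W η hη
  let ξ : W1 → G × I →₀ ℂ := Subtype.val
  have hξ : Set.range ξ = (W1 : Set (G × I →₀ ℂ)) := Subtype.range_coe
  let F : Finset G := W1.biUnion fun w => w.support.image Prod.fst
  have hF : ∀ s g i, ξ s (g, i) ≠ 0 → g ∈ F := by
    intro s g i hne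
    simp only [F, Finset.mem_biUnion, Finset.mem_image]
    exact ⟨s.1, s.2, (g, i), Finsupp.mem_support_iff.mpr hne, rfl⟩
  have hδ : (ε / 3) / ((Fintype.card W1 : ℝ≥0∞) * F.card + 1) ≠ 0 := by
    rw [Ne, ENNReal.div_eq_zero_iff]
    push Not
    refine ⟨hε3, ?_⟩
    exact ENNReal.add_ne_top.mpr ⟨ENNReal.mul_ne_top (ENNReal.natCast_ne_top _)
      (ENNReal.natCast_ne_top _), ENNReal.one_ne_top⟩
  obtain ⟨Y, A, a, haA, ha, hK⟩ := tiling hQ (F.image fun h : G => (h : G ⧸ N)) _ hδ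
  let B : Finset (G ⧸ N) := A.image fun q => q⁻¹
  have hB : ∀ y, (a y)⁻¹ ∈ B := fun y => Finset.mem_image_of_mem _ (haA y)
  have hgood : (Fintype.card W1 : ℝ≥0∞) * Y.μ (good N F a)ᶜ ≤ ε / 3 := by
    have h1 : (good N F a)ᶜ ⊆ ⋃ h ∈ F, {y | a y ≠ (h : G ⧸ N) * a ((h : G ⧸ N)⁻¹ • y)} := by
      intro y hy
      rw [Set.mem_compl_iff] at hy
      simp only [Set.mem_iUnion]
      by_contra hcon
      apply hy
      intro h hh
      by_contra hne
      exact hcon ⟨h, hh, hne⟩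
    have h2 : Y.μ (good N F a)ᶜ ≤ F.card * ((ε / 3) / ((Fintype.card W1 : ℝ≥0∞) * F.card + 1)) := by
      refine (measure_mono h1).trans ((measure_biUnion_finset_le _ _).trans ?_)
      rw [← nsmul_eq_mul]
      apply Finset.sum_le_card_nsmul
      intro h hh
      exact hK _ (Finset.mem_image_of_mem _ hh)
    calc (Fintype.card W1 : ℝ≥0∞) * Y.μ (good N F a)ᶜ
        ≤ (Fintype.card W1 : ℝ≥0∞) * (F.card * ((ε / 3) / ((Fintype.card W1 : ℝ≥0∞) * F.card + 1))) :=
          mul_le_mul_right h2 _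
      _ = ((Fintype.card W1 : ℝ≥0∞) * F.card) * ((ε / 3) / ((Fintype.card W1 : ℝ≥0∞) * F.card + 1)) := by
          rw [mul_assoc]
      _ ≤ ((Fintype.card W1 : ℝ≥0∞) * F.card + 1) *
          ((ε / 3) / ((Fintype.card W1 : ℝ≥0∞) * F.card + 1)) := by
          gcongr
          exact le_self_add
      _ ≤ ε / 3 := ENNReal.mul_div_le
  -- the spaces of the normal subgroup
  choose X₁ T₁ hT₁ hsum₁ hgen₁ using
    fun τ : Finset (G ⧸ N) => hN (τ × I) (WW N ξ τ) (ε / 3) hε3
  obtain ⟨X₂, hX₂⟩ := PMP.pi_exists (Finset (G ⧸ N)) (fun τ => PMP.coind N (X₁ τ))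
  have hp : ∀ τ : Finset (G ⧸ N), ∃ p : X₂.X → (X₁ τ).X, MeasurePreserving p X₂.μ (X₁ τ).μ ∧
      ∀ (n : N) (x : X₂.X), p ((n : G) • x) = n • p x := by
    intro τ
    obtain ⟨q, hq1, hq2⟩ := PMP.coind_proj N (X₁ τ)
    obtain ⟨f⟩ := hX₂ τ
    refine ⟨fun x => q (f.f x), hq1.comp f.mp, fun n x => ?_⟩
    change q (f.f ((n : G) • x)) = n • q (f.f x)
    rw [f.eqv, hq2]
  choose p hpm hpe using hp
  let Y' : PMP G := PMP.res (QuotientGroup.mk' N) Y
  let X : PMP G := PMP.prod Y' X₂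
  have hYact : ∀ (g : G) (y : Y.X), ((g • (show Y'.X from y) : Y'.X) : Y.X) = (g : G ⧸ N) • y :=
    fun g y => rfl
  let tc : X.X → Finset (G ⧸ N) := fun x => tau B a (show Y.X from x.1)
  let C : ∀ τ : Finset (G ⧸ N), τ → I → Set X.X := fun τ b i =>
    {x | tc x = τ ∧ p τ x.2 ∈ T₁ τ (b, i)}
  have hC : ∀ τ b i, MeasurableSet (C τ b i) := by
    intro τ b i
    have h1 : MeasurableSet {x : X.X | tc x = τ} :=
      (PMP.p1_mp Y' X₂).measurable (meas_tau Y B a ha τ)
    have h2 : MeasurableSet {x : X.X | p τ x.2 ∈ T₁ τ (b, i)} :=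
      (PMP.p2_mp Y' X₂).measurable ((hpm τ).measurable (hT₁ τ (b, i)))
    exact h1.inter h2
  have hCμ : ∀ τ b i, X.μ (C τ b i) = Y.μ {y | tau B a y = τ} * (X₁ τ).μ (T₁ τ (b, i)) := by
    intro τ b i
    have e : C τ b i = {y : Y'.X | tau B a (show Y.X from y) = τ} ×ˢ (p τ ⁻¹' T₁ τ (b, i)) := by
      ext x
      rfl
    rw [e]
    change (Y'.μ.prod X₂.μ) _ = _
    rw [Measure.prod_prod, (hpm τ).measure_preimage (hT₁ τ (b, i)).nullMeasurableSet]
    rfl
  let T : I → Set X.X := fun i => ⋃ τ ∈ B.powerset, ⋃ b : τ,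
    (fun x : X.X => csr N (b : G ⧸ N) • x) ⁻¹' C τ b i
  have hTm : ∀ i, MeasurableSet (T i) := by
    intro i
    apply Finset.measurableSet_biUnion
    intro τ _
    exact MeasurableSet.iUnion fun b => (X.mp _).measurable (hC τ b i)
  refine ⟨X, T, hTm, ?_, ?_⟩
  · -- measures
    have h1 : ∀ i, X.μ (T i) ≤ ∑ τ ∈ B.powerset, ∑ b : τ,
        Y.μ {y | tau B a y = τ} * (X₁ τ).μ (T₁ τ (b, i)) := by
      intro i
      refine (measure_biUnion_finset_le _ _).trans ?_
      apply Finset.sum_le_sum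
      intro τ _
      refine (measure_iUnion_le _).trans ?_
      rw [tsum_fintype]
      apply Finset.sum_le_sum
      intro b _
      rw [(X.mp _).measure_preimage (hC τ b i).nullMeasurableSet, hCμ]
    have h2 : ∑ i, X.μ (T i) ≤ ∑ τ ∈ B.powerset,
        Y.μ {y | tau B a y = τ} * ∑ q : τ × I, (X₁ τ).μ (T₁ τ q) := by
      refine (Finset.sum_le_sum fun i _ => h1 i).trans (le_of_eq ?_)
      rw [Finset.sum_comm]
      apply Finset.sum_congr rfl
      intro τ _
      rw [Fintype.sum_prod_type, Finset.sum_comm, Finset.mul_sum]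
      apply Finset.sum_congr rfl
      intro b _
      rw [Finset.mul_sum]
    have h3 := ext_dim N ξ F hF Y a ha B hB
    rw [hξ] at h3
    have h4 : ENNReal.ofReal (vd (wspan W)) ≤
        (∑ τ ∈ B.powerset, Y.μ {y | tau B a y = τ} * ENNReal.ofReal (vd (wspan (WW N ξ τ))) +
          ε / 3) + ε / 3 := by
      calc ENNReal.ofReal (vd (wspan W))
          ≤ ENNReal.ofReal (vd (wspan (W1 : Set (G × I →₀ ℂ))) + η) := ENNReal.ofReal_le_ofReal hW1'
        _ ≤ ENNReal.ofReal (vd (wspan (W1 : Set (G × I →₀ ℂ)))) + ENNReal.ofReal η :=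
            ENNReal.ofReal_add_le
        _ ≤ _ := by
            apply add_le_add _ hηε
            refine h3.trans ?_
            exact add_le_add le_rfl hgood
    have h5 : ∀ τ ∈ B.powerset, Y.μ {y | tau B a y = τ} * ∑ q : τ × I, (X₁ τ).μ (T₁ τ q) +
        Y.μ {y | tau B a y = τ} * ENNReal.ofReal (vd (wspan (WW N ξ τ))) ≤
        Y.μ {y | tau B a y = τ} * (τ.card : ℝ≥0∞) * Fintype.card I +
          Y.μ {y | tau B a y = τ} * (ε / 3) := by
      intro τ _
      rw [← mul_add, mul_assoc, ← mul_add]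
      apply mul_le_mul_right
      have h6 := hsum₁ τ
      rw [Fintype.card_prod, Fintype.card_coe, Nat.cast_mul] at h6
      exact h6
    calc ∑ i, X.μ (T i) + ENNReal.ofReal (vd (wspan W))
        ≤ ∑ τ ∈ B.powerset, Y.μ {y | tau B a y = τ} * ∑ q : τ × I, (X₁ τ).μ (T₁ τ q) +
          ((∑ τ ∈ B.powerset, Y.μ {y | tau B a y = τ} * ENNReal.ofReal (vd (wspan (WW N ξ τ))) +
          ε / 3) + ε / 3) := add_le_add h2 h4
      _ = ∑ τ ∈ B.powerset, (Y.μ {y | tau B a y = τ} * ∑ q : τ × I, (X₁ τ).μ (T₁ τ q) +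
          Y.μ {y | tau B a y = τ} * ENNReal.ofReal (vd (wspan (WW N ξ τ)))) + (ε / 3 + ε / 3) := by
          rw [Finset.sum_add_distrib]
          ring
      _ ≤ ∑ τ ∈ B.powerset, (Y.μ {y | tau B a y = τ} * (τ.card : ℝ≥0∞) * Fintype.card I +
          Y.μ {y | tau B a y = τ} * (ε / 3)) + (ε / 3 + ε / 3) :=
          add_le_add (Finset.sum_le_sum h5) le_rfl
      _ = (∑ τ ∈ B.powerset, Y.μ {y | tau B a y = τ} * (τ.card : ℝ≥0∞)) * Fintype.card I +
          (∑ τ ∈ B.powerset, Y.μ {y | tau B a y = τ}) * (ε / 3) + (ε / 3 + ε / 3) := by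
          rw [Finset.sum_add_distrib, Finset.sum_mul, Finset.sum_mul]
      _ ≤ 1 * Fintype.card I + 1 * (ε / 3) + (ε / 3 + ε / 3) := by
          gcongr
          · exact tau_card Y B a ha
          · exact tau_sum Y B a ha
      _ = Fintype.card I + (ε / 3 + ε / 3 + ε / 3) := by ring
      _ = Fintype.card I + ε := by rw [ENNReal.add_thirds]
  · -- generation
    intro x i
    refine gspan_mono (W := Set.range ξ) (by rw [hξ]; exact hW1) T x ?_
    let b : G ⧸ N := (a (show Y.X from x.1))⁻¹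
    let x' : X.X := csr N b • x
    have hx1 : (show Y.X from x'.1) = b • (show Y.X from x.1) := by
      have h1 := hYact (csr N b) (show Y.X from x.1)
      rw [csr_spec] at h1
      exact h1
    have hb : b ∈ tc x' := by
      change b ∈ tau B a (show Y.X from x'.1)
      rw [mem_tau B a hB, hx1, inv_smul_smul]
      simp only [b, inv_inv]
    apply ext_gen N ξ (tc x') (T₁ (tc x')) T x ⟨b, hb⟩ i (p (tc x') x'.2) (hgen₁ (tc x') _ _)
    intro n b' j hj
    simp only [T, Set.mem_iUnion]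
    refine ⟨tc x', tau_powerset B a _, b', ?_⟩
    change csr N (b' : G ⧸ N) • ((csr N b)⁻¹ * ((n : G) * csr N b'))⁻¹ • x ∈ C (tc x') b' j
    have e : csr N (b' : G ⧸ N) • ((csr N b)⁻¹ * ((n : G) * csr N b'))⁻¹ • x =
        ((n⁻¹ : N) : G) • x' := by
      simp only [x']
      rw [← mul_smul, ← mul_smul, Subgroup.coe_inv]
      congr 1
      group
    rw [e]
    refine ⟨?_, ?_⟩
    · change tau B a (show Y.X from (((n⁻¹ : N) : G) • x').1) = tau B a (show Y.X from x'.1)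
      have h1 := hYact ((n⁻¹ : N) : G) (show Y.X from x'.1)
      rw [(QuotientGroup.eq_one_iff ((n⁻¹ : N) : G)).mpr (n⁻¹).2, one_smul] at h1
      exact congrArg (tau B a) h1
    · change p (tc x') (((n⁻¹ : N) : G) • x').2 ∈ T₁ (tc x') (b', j)
      have h1 : (((n⁻¹ : N) : G) • x').2 = ((n⁻¹ : N) : G) • x'.2 := rfl
      rw [h1, hpe]
      exact hj

end Pool.Agent.COST
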