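import Pool.Agent.COSTP.P1

/-!
Finite approximation and local closure of the rank property.
-/

set_option autoImplicit false

open scoped ENNReal InnerProductSpace
open MeasureTheory

namespace Pool.Agent.COST

theorem wspan_mono {H I : Type} [Group H] {W W' : Set (H × I →₀ ℂ)} (h : W ⊆ W') :
    wspan W ≤ wspan W' := by
  unfold wspan
  apply Submodule.span_mono
  rintro f ⟨g, w, hw, rfl⟩
  exact ⟨g, w, h hw, rfl⟩

theorem mem_wspan_fin {H I : Type} [Group H] {W : Set (H × I →₀ ℂ)} {x : L2 (H × I)}
    (hx : x ∈ wspan W) :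
    ∃ W' : Finset (H × I →₀ ℂ), (W' : Set (H × I →₀ ℂ)) ⊆ W ∧
      x ∈ wspan (W' : Set (H × I →₀ ℂ)) := by
  classical
  unfold wspan at hx
  induction hx using Submodule.span_induction with
  | mem x hx =>
    obtain ⟨g, w, hw, rfl⟩ := hx
    refine ⟨{w}, by simpa using hw, ?_⟩
    apply Submodule.subset_span
    exact ⟨g, w, by simp, rfl⟩
  | zero => exact ⟨∅, by simp, Submodule.zero_mem _⟩
  | add x y _ _ hx hy =>
    obtain ⟨W1, h1, h1'⟩ := hx
    obtain ⟨W2, h2, h2'⟩ := hy
    refine ⟨W1 ∪ W2, ?_, ?_⟩
    · rw [Finset.coe_union]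
      exact Set.union_subset h1 h2
    · exact Submodule.add_mem _ (wspan_mono (by simp) h1') (wspan_mono (by simp) h2')
  | smul c x _ hx =>
    obtain ⟨W1, h1, h1'⟩ := hx
    exact ⟨W1, h1, Submodule.smul_mem _ _ h1'⟩

/-- approximation by finitely many vectors -/
theorem fin_approx {H I : Type} [Group H] [Fintype I] (W : Set (H × I →₀ ℂ)) (η : ℝ)
    (hη : 0 < η) :
    ∃ W' : Finset (H × I →₀ ℂ), (W' : Set (H × I →₀ ℂ)) ⊆ W ∧
      vd (wspan W) ≤ vd (wspan (W' : Set (H × I →₀ ℂ))) + η := by
  classical
  obtain ⟨v, hv, h⟩ := vd_approx (wspan W) η hη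
  choose W1 h1 h2 using fun i => mem_wspan_fin (hv i)
  refine ⟨Finset.univ.biUnion W1, ?_, ?_⟩
  · intro w hw
    rw [Finset.mem_coe, Finset.mem_biUnion] at hw
    obtain ⟨i, _, hi⟩ := hw
    exact h1 i hi
  · apply h
    intro i
    refine wspan_mono ?_ (h2 i)
    intro w hw
    rw [Finset.mem_coe, Finset.mem_biUnion]
    exact ⟨i, Finset.mem_univ i, hw⟩

/-- The rank property is local. -/
theorem RankProp.loc {G : Type} [Group G] [Countable G]
    (h : ∀ F : Finset G, ∃ L : Subgroup G, (F : Set G) ⊆ L ∧ RankProp L) : RankProp G := by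
  classical
  intro I _ W ε hε
  -- constants
  obtain ⟨η, hη, hηε⟩ : ∃ η : ℝ, 0 < η ∧ ENNReal.ofReal η ≤ ε / 2 := by
    have hε2 : ε / 2 ≠ 0 := (ENNReal.half_pos hε).ne'
    by_cases htop : ε / 2 = ⊤
    · exact ⟨1, one_pos, by rw [htop]; exact le_top⟩
    · refine ⟨(ε / 2).toReal, ENNReal.toReal_pos hε2 htop, ?_⟩
      rw [ENNReal.ofReal_toReal htop]
  obtain ⟨W1, hW1, hW1'⟩ := fin_approx W η hη
  obtain ⟨L, hF, hL⟩ := h (W1.biUnion fun w => w.support.image Prod.fst)
  have hsupp : ∀ w ∈ W1, ∀ g i, w (g, i) ≠ 0 → g ∈ L := by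
    intro w hw g i hne
    apply hF
    rw [Finset.mem_coe, Finset.mem_biUnion]
    refine ⟨w, hw, ?_⟩
    rw [Finset.mem_image]
    exact ⟨(g, i), Finsupp.mem_support_iff.mpr hne, rfl⟩
  let em : L × I → G × I := fun p => ((p.1 : G), p.2)
  have hem : Function.Injective em := by
    rintro ⟨a, i⟩ ⟨b, j⟩ h
    simp only [em, Prod.mk.injEq] at h
    exact Prod.ext (Subtype.ext h.1) h.2
  let W2 : Set (L × I →₀ ℂ) := {u | Finsupp.mapDomain em u ∈ W1}
  obtain ⟨X1, T1, hT1, hsum, hgen⟩ := hL I W2 (ε / 2) (ENNReal.half_pos hε).ne'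
  obtain ⟨p, hpm, hpe⟩ := PMP.coind_proj L X1
  refine ⟨PMP.coind L X1, fun i => p ⁻¹' (T1 i), fun i => hpm.measurable (hT1 i), ?_, ?_⟩
  · have hle : vd (wspan (W1 : Set (G × I →₀ ℂ))) ≤ vd (wspan W2) := by
      obtain ⟨E, hE, hEa⟩ := pre_op (fun q : L × I => some (em q)) (by
        intro a b ω h1 h2
        simp only [Option.some.injEq] at h1 h2
        exact hem (h1.trans h2.symm))
      have hdl : ∀ i, E (dl ((1 : G), i)) = dl ((1 : L), i) := by
        intro i
        apply L2.ext
        rintro ⟨l, j⟩
        rw [hEa, Option.elim_some]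
        by_cases h : ((l, j) : L × I) = (1, i)
        · have h' : em (l, j) = ((1 : G), i) := by
            rw [h]
            rfl
          rw [h, dl_self]
          rw [h] at h'
          rw [h', dl_self]
        · have h' : em (l, j) ≠ ((1 : G), i) := by
            intro h2
            apply h
            apply hem
            rw [h2]
            rfl
          rw [dl_ne h, dl_ne h']
      unfold vd
      apply Finset.sum_le_sum
      intro i _
      rw [← hdl i]
      apply proj_le E hE
      · intro u hu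
        have hsp : wspan (W1 : Set (G × I →₀ ℂ)) ≤ (wspan W2).comap E.toLinearMap := by
          conv_lhs => unfold wspan
          rw [Submodule.span_le]
          rintro _ ⟨g, w, hw, rfl⟩
          change E (tr g (toL2 w)) ∈ wspan W2
          by_cases hg : g ∈ L
          · apply Submodule.subset_span
            refine ⟨⟨g, hg⟩, w.comapDomain em hem.injOn, ?_, ?_⟩
            · change Finsupp.mapDomain em _ ∈ W1
              rw [Finsupp.mapDomain_comapDomain em hem]
              · exact hw
              · rintro ⟨k, i'⟩ hk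
                have := hsupp w hw k i' (Finsupp.mem_support_iff.mp hk)
                exact ⟨(⟨k, this⟩, i'), rfl⟩
            · apply L2.ext
              rintro ⟨k, j⟩
              rw [hEa, Option.elim_some]
              change tr g (toL2 w) ((k : G), j) = _
              rw [tr_toL2, tr_toL2]
              rfl
          · have h0 : E (tr g (toL2 w)) = 0 := by
              apply L2.ext
              rintro ⟨k, j⟩
              rw [hEa, Option.elim_some]
              change tr g (toL2 w) ((k : G), j) = _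
              rw [tr_toL2]
              change w (g⁻¹ * (k : G), j) = 0
              by_contra hne
              have h1 := hsupp w hw _ _ hne
              apply hg
              have h2 := L.mul_mem k.2 (L.inv_mem h1)
              rw [mul_inv_rev, inv_inv, mul_inv_cancel_left] at h2
              exact h2
            rw [h0]
            exact Submodule.zero_mem _
        exact hsp hu
      · rw [hdl, norm_dl, norm_dl]
    have h5 : ENNReal.ofReal (vd (wspan W)) ≤ ENNReal.ofReal (vd (wspan W2)) + ε / 2 := by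
      calc ENNReal.ofReal (vd (wspan W)) ≤ ENNReal.ofReal (vd (wspan W2) + η) :=
            ENNReal.ofReal_le_ofReal (hW1'.trans (by linarith))
        _ ≤ ENNReal.ofReal (vd (wspan W2)) + ENNReal.ofReal η := ENNReal.ofReal_add_le
        _ ≤ ENNReal.ofReal (vd (wspan W2)) + ε / 2 := by gcongr
    have h6 : ∀ i, (PMP.coind L X1).μ (p ⁻¹' (T1 i)) = X1.μ (T1 i) := fun i =>
      hpm.measure_preimage (hT1 i).nullMeasurableSet
    simp only [h6]
    calc ∑ i, X1.μ (T1 i) + ENNReal.ofReal (vd (wspan W))
        ≤ ∑ i, X1.μ (T1 i) + (ENNReal.ofReal (vd (wspan W2)) + ε / 2) := by gcongr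
      _ = (∑ i, X1.μ (T1 i) + ENNReal.ofReal (vd (wspan W2))) + ε / 2 := by rw [add_assoc]
      _ ≤ (Fintype.card I + ε / 2) + ε / 2 := by gcongr
      _ = Fintype.card I + ε := by rw [add_assoc, ENNReal.add_halves]
  · intro x i
    have h1 : Finsupp.lmapDomain ℂ ℂ em (Finsupp.single ((1 : L), i) 1) =
        Finsupp.single ((1 : G), i) 1 := by
      rw [Finsupp.lmapDomain_apply, Finsupp.mapDomain_single]
      rfl
    rw [← h1]
    have hsp : gspan W2 T1 (p x) ≤
        (gspan W (fun i => p ⁻¹' (T1 i)) x).comap (Finsupp.lmapDomain ℂ ℂ em) := by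
      conv_lhs => unfold gspan
      rw [Submodule.span_le]
      rintro u (⟨g, w, hw, rfl⟩ | ⟨g, j, hj, rfl⟩)
      · apply Submodule.subset_span
        left
        refine ⟨(g : G), Finsupp.mapDomain em w, hW1 hw, ?_⟩
        rw [Finsupp.lmapDomain_apply]
        unfold ltr
        rw [Finsupp.lmapDomain_apply, Finsupp.lmapDomain_apply, ← Finsupp.mapDomain_comp,
          ← Finsupp.mapDomain_comp]
        rfl
      · apply Submodule.subset_span
        right
        refine ⟨(g : G), j, ?_, ?_⟩
        · change p (((g : G))⁻¹ • x) ∈ T1 j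
          have := hpe g⁻¹ x
          rw [Subgroup.coe_inv] at this
          rw [this]
          exact hj
        · rw [Finsupp.lmapDomain_apply, Finsupp.mapDomain_single]
    exact hsp (hgen (p x) i)

end Pool.Agent.COST
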