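import Pool.Agent.COSTP.P4c

/-!
The class of groups generated by the bi-orderable groups under subgroups, local closure and
extensions with amenable quotient, and the identity of cost and first l2-Betti number.
-/

set_option autoImplicit false

open scoped ENNReal

namespace Pool.Agent.COST

/-- The smallest class of countable groups which contains the bi-orderable groups and is closed
under subgroups (more generally, groups which inject into a member), under local closure (every
finite subset lies in a subgroup of the class), in particular under directed unions, and under
extensions with amenable quotient: if `N` is a normal subgroup in the class and `G ⧸ N` satisfies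
the Folner condition, then `G` is in the class. -/
inductive AmenClass : (G : Type) → [Group G] → Prop
  | biOrderable (G : Type) [Group G] [Countable G] (h : BiOrderable G) : AmenClass G
  | subgroup (G H : Type) [Group G] [Group H] (f : G →* H) (hf : Function.Injective f)
      (h : AmenClass H) : AmenClass G
  | localClosure (G : Type) [Group G] [Countable G] (L : Finset G → Subgroup G)
      (hL : ∀ F : Finset G, (F : Set G) ⊆ L F) (h : ∀ F : Finset G, AmenClass (L F)) : AmenClass G
  | extension (G : Type) [Group G] [Countable G] (N : Subgroup G) [N.Normal] (hN : AmenClass N)
      (hQ : Folner (G ⧸ N)) : AmenClass G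

theorem AmenClass.rank {G : Type} [Group G] (h : AmenClass G) : RankProp G := by
  induction h with
  | biOrderable G h => exact rank_biorder h
  | subgroup G H f hf _ ih => exact RankProp.sub f hf ih
  | localClosure G L hL _ ih => exact RankProp.loc fun F => ⟨L F, hL F, ih F⟩
  | extension G N _ hQ ih => exact RankProp.ext N ih hQ

theorem folner_of_finite {Q : Type} [Group Q] [Finite Q] : Folner Q := by
  classical
  have : Fintype Q := Fintype.ofFinite Q
  intro K ε hε
  refine ⟨Finset.univ, Finset.univ_nonempty, ?_⟩
  intro k _
  have e : (Finset.univ.image fun a : Q => k * a) = Finset.univ := by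
    apply Finset.image_univ_of_surjective
    intro b
    exact ⟨k⁻¹ * b, mul_inv_cancel_left k b⟩
  have e2 : symmDiff (Finset.univ.image fun a : Q => k * a) Finset.univ = ∅ := by
    rw [e, symmDiff_self]
    rfl
  have h0 : ((symmDiff (Finset.univ.image fun a : Q => k * a) Finset.univ).card : ℝ) = 0 := by
    rw [e2]
    simp
  have h1 : (0 : ℝ) ≤ ε * ((Finset.univ : Finset Q).card : ℝ) := by positivity
  calc _ = (0 : ℝ) := by
        rw [← h0]
    _ ≤ _ := h1

/-- every countable virtually bi-orderable group is in the class -/
theorem AmenClass.of_finiteIndex {G : Type} [Group G] [Countable G] (H : Subgroup G)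
    [H.FiniteIndex] (hH : BiOrderable H) : AmenClass G := by
  have h1 : AmenClass H := AmenClass.biOrderable H hH
  have h2 : AmenClass H.normalCore :=
    AmenClass.subgroup _ H (Subgroup.inclusion H.normalCore_le)
      (Subgroup.inclusion_injective _) h1
  have h3 : Finite (G ⧸ H.normalCore) := Subgroup.finite_quotient_of_finiteIndex
  exact AmenClass.extension G H.normalCore h2 folner_of_finite

/-- The identity `b_1^(2)(G) = cost(G) - 1` for every infinite finitely generated group of the
class. -/
theorem betti_eq_cost_of_class {G : Type} [Group G] [Infinite G] (hG : AmenClass G) {d : ℕ}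
    (s : Fin d → G) (hs : Subgroup.closure (Set.range s) = ⊤) :
    groupCost G ≠ ⊤ ∧ Statement.bettiOne s = (groupCost G).toReal - 1 := by
  have hc : Countable G := e7_1_countable s hs
  have h1 : groupCost G = ENNReal.ofReal (1 + bettiOne s) :=
    le_antisymm (cost_of_rank hG.rank s hs) (betti_le_cost s hs)
  rw [statement_bettiOne, h1]
  refine ⟨ENNReal.ofReal_ne_top, ?_⟩
  rw [ENNReal.toReal_ofReal (one_add_betti_nonneg s hs)]
  ring

end Pool.Agent.COST
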